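import Mathlib

/-! # Divisibility of the invariants of a global minimal Weierstrass equation -/

set_option autoImplicit false

namespace Q265.MS

/-- `W` is a global minimal Weierstrass equation -/
def IsGlobalMinimal (W : WeierstrassCurve ℤ) : Prop :=
  W.Δ ≠ 0 ∧ ∀ W' : WeierstrassCurve ℤ,
    (∃ C : WeierstrassCurve.VariableChange ℚ,
      C • W.map (Int.castRingHom ℚ) = W'.map (Int.castRingHom ℚ)) → |W.Δ| ≤ |W'.Δ|

/-- If `u > 6`, then `u ^ 4` does not divide `c₄` or `u ^ 6` does not divide `c₆`. -/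
theorem not_dvd {W : WeierstrassCurve ℤ} (hW : IsGlobalMinimal W) (u : ℕ) (hu : 6 < u)
    (h4 : (u : ℤ) ^ 4 ∣ W.c₄) (h6 : (u : ℤ) ^ 6 ∣ W.c₆) : False := by
  obtain ⟨A, hA⟩ := h4
  obtain ⟨B, hB⟩ := h6
  have hu0 : (u : ℚ) ≠ 0 := by
    have : u ≠ 0 := by omega
    exact_mod_cast this
  set W' : WeierstrassCurve ℤ := ⟨0, 0, 0, -27 * A, -54 * B⟩ with hW'
  have hAq : (W.c₄ : ℚ) = (u : ℚ) ^ 4 * A := by rw [hA]; push_cast; ring
  have hBq : (W.c₆ : ℚ) = (u : ℚ) ^ 6 * B := by rw [hB]; push_cast; ring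
  have hc4 : (W.c₄ : ℚ) = ((W.a₁ : ℚ) ^ 2 + 4 * W.a₂) ^ 2 - 24 * (2 * W.a₄ + W.a₁ * W.a₃) := by
    simp only [WeierstrassCurve.c₄, WeierstrassCurve.b₂, WeierstrassCurve.b₄]
    push_cast
    ring
  have hc6 : (W.c₆ : ℚ) = -((W.a₁ : ℚ) ^ 2 + 4 * W.a₂) ^ 3 +
      36 * ((W.a₁ : ℚ) ^ 2 + 4 * W.a₂) * (2 * W.a₄ + W.a₁ * W.a₃) -
      216 * ((W.a₃ : ℚ) ^ 2 + 4 * W.a₆) := by
    simp only [WeierstrassCurve.c₆, WeierstrassCurve.b₂, WeierstrassCurve.b₄, WeierstrassCurve.b₆]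
    push_cast
    ring
  set b2 : ℚ := (W.a₁ : ℚ) ^ 2 + 4 * W.a₂ with hb2
  have hex : ∃ C : WeierstrassCurve.VariableChange ℚ,
      C • W.map (Int.castRingHom ℚ) = W'.map (Int.castRingHom ℚ) := by
    refine ⟨⟨Units.mk0 ((u : ℚ) / 6) (div_ne_zero hu0 (by norm_num)), -b2 / 12, -(W.a₁ : ℚ) / 2,
      -(W.a₃ : ℚ) / 2 + W.a₁ * b2 / 24⟩, ?_⟩
    have hinv : (((Units.mk0 ((u : ℚ) / 6) (div_ne_zero hu0 (by norm_num)))⁻¹ : ℚˣ) : ℚ) =
        6 / (u : ℚ) := by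
      rw [Units.val_inv_eq_inv_val, Units.val_mk0, inv_div]
    ext
    · rw [WeierstrassCurve.variableChange_a₁, hinv]
      simp only [WeierstrassCurve.map, hW', eq_intCast]
      push_cast
      field_simp
      ring
    · rw [WeierstrassCurve.variableChange_a₂, hinv]
      simp only [WeierstrassCurve.map, hW', eq_intCast, hb2]
      push_cast
      field_simp
      ring
    · rw [WeierstrassCurve.variableChange_a₃, hinv]
      simp only [WeierstrassCurve.map, hW', eq_intCast, hb2]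
      push_cast
      field_simp
      ring
    · rw [WeierstrassCurve.variableChange_a₄, hinv]
      simp only [WeierstrassCurve.map, hW', eq_intCast]
      push_cast
      have e : (A : ℚ) = (b2 ^ 2 - 24 * (2 * W.a₄ + W.a₁ * W.a₃)) / (u : ℚ) ^ 4 := by
        rw [← hc4, hAq]; field_simp
      rw [e, hb2]
      field_simp
      ring
    · rw [WeierstrassCurve.variableChange_a₆, hinv]
      simp only [WeierstrassCurve.map, hW', eq_intCast]
      push_cast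
      have e : (B : ℚ) = (-b2 ^ 3 + 36 * b2 * (2 * W.a₄ + W.a₁ * W.a₃) -
          216 * ((W.a₃ : ℚ) ^ 2 + 4 * W.a₆)) / (u : ℚ) ^ 6 := by
        rw [← hc6, hBq]; field_simp
      rw [e, hb2]
      field_simp
      ring
  have hle := hW.2 W' hex
  have h1 : 1728 * W.Δ = (u : ℤ) ^ 12 * (A ^ 3 - B ^ 2) := by
    rw [W.c_relation, hA, hB]
    ring
  have h2 : 1728 * W'.Δ = 6 ^ 12 * (A ^ 3 - B ^ 2) := by
    rw [W'.c_relation]
    simp only [hW', WeierstrassCurve.c₄, WeierstrassCurve.c₆, WeierstrassCurve.b₂,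
      WeierstrassCurve.b₄, WeierstrassCurve.b₆]
    ring
  have h3 : (u : ℤ) ^ 12 * |A ^ 3 - B ^ 2| ≤ 6 ^ 12 * |A ^ 3 - B ^ 2| := by
    have e1 : (1728 : ℤ) * |W.Δ| = (u : ℤ) ^ 12 * |A ^ 3 - B ^ 2| := by
      rw [← abs_of_pos (by norm_num : (0 : ℤ) < 1728), ← abs_mul, h1, abs_mul,
        abs_of_nonneg (by positivity : (0 : ℤ) ≤ (u : ℤ) ^ 12)]
    have e2 : (1728 : ℤ) * |W'.Δ| = 6 ^ 12 * |A ^ 3 - B ^ 2| := by
      rw [← abs_of_pos (by norm_num : (0 : ℤ) < 1728), ← abs_mul, h2, abs_mul,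
        abs_of_nonneg (by positivity : (0 : ℤ) ≤ (6 : ℤ) ^ 12)]
    linarith
  have h4 : 0 < |A ^ 3 - B ^ 2| := by
    apply abs_pos.2
    intro h0
    apply hW.1
    rw [h0, mul_zero] at h1
    omega
  have h5 : (u : ℤ) ^ 12 ≤ 6 ^ 12 := le_of_mul_le_mul_right h3 h4
  have h6 : (6 : ℤ) ^ 12 < (u : ℤ) ^ 12 := pow_lt_pow_left₀ (by exact_mod_cast hu) (by norm_num)
    (by norm_num)
  linarith

end Q265.MS
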