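import Mathlib
import Pool.Agent.Q265.MS.Min
import Pool.Agent.Q241.AC.A

/-! # The local inequalities -/

set_option autoImplicit false

open Finset

namespace Q265.MS

open Q241.AC (R)

/-- the prime-to-6 part of the conductor -/
def N6 (W : WeierstrassCurve ℤ) : ℕ :=
  ∏ p ∈ W.Δ.natAbs.primeFactors.filter (fun p => 5 ≤ p), if (p : ℤ) ∣ W.c₄ then p ^ 2 else p

lemma N6_pos (W : WeierstrassCurve ℤ) : 0 < N6 W := by
  refine prod_pos fun p hp => ?_
  have := (Nat.prime_of_mem_primeFactors (mem_filter.1 hp).1).pos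
  split_ifs <;> positivity

lemma N6_fac (W : WeierstrassCurve ℤ) (hΔ : W.Δ ≠ 0) {p : ℕ} (hp : p.Prime) (hp5 : 5 ≤ p)
    (hd : (p : ℤ) ∣ W.Δ) : 1 ≤ (N6 W).factorization p ∧
      ((p : ℤ) ∣ W.c₄ → 2 ≤ (N6 W).factorization p) := by
  have hmem : p ∈ W.Δ.natAbs.primeFactors.filter (fun p => 5 ≤ p) := by
    rw [mem_filter, Nat.mem_primeFactors]
    exact ⟨⟨hp, Int.natCast_dvd.1 hd, Int.natAbs_ne_zero.2 hΔ⟩, hp5⟩
  have h1 := dvd_prod_of_mem (fun p : ℕ => if (p : ℤ) ∣ W.c₄ then p ^ 2 else p) hmem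
  have h0 : N6 W ≠ 0 := (N6_pos W).ne'
  constructor
  · rw [← hp.pow_dvd_iff_le_factorization h0, pow_one]
    refine dvd_trans ?_ h1
    split_ifs
    · exact dvd_pow_self p (by norm_num)
    · exact dvd_rfl
  · intro h
    rw [← hp.pow_dvd_iff_le_factorization h0]
    refine dvd_trans ?_ h1
    rw [if_pos h]

lemma R_fac (n p : ℕ) : (R n).factorization p = if p ∈ n.primeFactors then 1 else 0 := by
  unfold R
  rw [Nat.factorization_prod fun q hq => (Nat.prime_of_mem_primeFactors hq).ne_zero,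
    Finsupp.finsetSum_apply]
  have h : ∀ q ∈ n.primeFactors, q.factorization p = if p = q then 1 else 0 := by
    intro q hq
    rw [(Nat.prime_of_mem_primeFactors hq).factorization, Finsupp.single_apply]
    simp only [eq_comm]
  rw [sum_congr rfl h, sum_ite_eq]

lemma fac30 {p : ℕ} (hp : p.Prime) (h : p < 7) (k : ℕ) : (30 ^ k).factorization p = k := by
  rw [Nat.factorization_pow, Finsupp.smul_apply, smul_eq_mul]
  have h1 : (30 : ℕ).factorization p = 1 := by
    have h2 := hp.two_le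
    interval_cases p
    · decide +kernel
    · decide +kernel
    · exact absurd hp (by norm_num)
    · decide +kernel
    · exact absurd hp (by norm_num)
  rw [h1, mul_one]

/-- what minimality says about the valuations -/
lemma min_fac {W : WeierstrassCurve ℤ} (hW : IsGlobalMinimal W) {p : ℕ} (hp : p.Prime) :
    (7 ≤ p → ¬ (p ^ 4 ∣ W.c₄.natAbs ∧ p ^ 6 ∣ W.c₆.natAbs)) ∧
      (p < 7 → ¬ (p ^ 16 ∣ W.c₄.natAbs ∧ p ^ 24 ∣ W.c₆.natAbs)) := by
  constructor
  · rintro h ⟨h1, h2⟩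
    refine not_dvd hW p (by omega) ?_ ?_
    · exact_mod_cast Int.natCast_dvd.2 h1
    · exact_mod_cast Int.natCast_dvd.2 h2
  · rintro h ⟨h1, h2⟩
    have h3 := hp.two_le
    refine not_dvd hW (p ^ 4) ?_ ?_ ?_
    · calc 6 < 2 ^ 4 := by norm_num
        _ ≤ p ^ 4 := Nat.pow_le_pow_left h3 4
    · have : ((p ^ 4 : ℕ) : ℤ) ^ 4 = ((p ^ 16 : ℕ) : ℤ) := by push_cast; ring
      rw [this]
      exact Int.natCast_dvd.2 h1
    · have : ((p ^ 4 : ℕ) : ℤ) ^ 6 = ((p ^ 24 : ℕ) : ℤ) := by push_cast; ring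
      rw [this]
      exact Int.natCast_dvd.2 h2

/-- the common relation between the absolute values -/
lemma rel {W : WeierstrassCurve ℤ} : ∀ p : ℕ, p.Prime → 7 ≤ p →
    ((p : ℤ) ∣ W.Δ ↔ (p : ℤ) ∣ W.c₄ ^ 3 - W.c₆ ^ 2) := by
  intro p hp h7
  rw [← W.c_relation]
  have hpp : Prime (p : ℤ) := Nat.prime_iff_prime_int.1 hp
  constructor
  · exact fun h => h.mul_left _
  · intro h
    rcases hpp.dvd_or_dvd h with h1 | h1
    · exfalso
      have h2 : p ∣ 1728 := by exact_mod_cast h1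
      have h3 : (1728 : ℕ) = 2 ^ 6 * 3 ^ 3 := by norm_num
      rw [h3] at h2
      rcases (hp.dvd_mul).1 h2 with h4 | h4
      · have := Nat.le_of_dvd (by norm_num) (hp.dvd_of_dvd_pow h4)
        omega
      · have := Nat.le_of_dvd (by norm_num) (hp.dvd_of_dvd_pow h4)
        omega
    · exact h1

/-- **The local inequality** -/
theorem local_ineq {W : WeierstrassCurve ℤ} (hW : IsGlobalMinimal W) (h4 : W.c₄ ≠ 0)
    (h6 : W.c₆ ≠ 0) {g A B C : ℕ} (hg : g = Nat.gcd (W.c₄.natAbs ^ 3) (W.c₆.natAbs ^ 2))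
    (hA : g * A = W.c₄.natAbs ^ 3) (hB : g * B = W.c₆.natAbs ^ 2)
    (hC : g * C = (1728 * W.Δ).natAbs) :
    g * R (A * B * C) ∣ 30 ^ 47 * (W.c₄.natAbs * W.c₆.natAbs * N6 W) := by
  obtain ⟨x, hx⟩ : ∃ x, x = W.c₄.natAbs := ⟨_, rfl⟩
  obtain ⟨y, hy⟩ : ∃ y, y = W.c₆.natAbs := ⟨_, rfl⟩
  rw [← hx] at hg hA ⊢
  rw [← hy] at hg hB ⊢
  have hx0 : x ≠ 0 := by rw [hx]; exact Int.natAbs_ne_zero.2 h4
  have hy0 : y ≠ 0 := by rw [hy]; exact Int.natAbs_ne_zero.2 h6
  have hg0 : g ≠ 0 := by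
    rintro rfl
    rw [zero_mul] at hA
    exact pow_ne_zero 3 hx0 hA.symm
  have hA0 : A ≠ 0 := by
    rintro rfl
    exact pow_ne_zero 3 hx0 (by rw [← hA, mul_zero])
  have hB0 : B ≠ 0 := by
    rintro rfl
    exact pow_ne_zero 2 hy0 (by rw [← hB, mul_zero])
  have hC0 : C ≠ 0 := by
    rintro rfl
    rw [mul_zero] at hC
    have := Int.natAbs_eq_zero.1 hC.symm
    exact hW.1 (by omega)
  have hR0 : R (A * B * C) ≠ 0 := (Q241.AC.R_pos _).ne'
  have hN0 : N6 W ≠ 0 := (N6_pos W).ne'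
  rw [← Nat.factorization_le_iff_dvd (mul_ne_zero hg0 hR0)
    (mul_ne_zero (by positivity) (mul_ne_zero (mul_ne_zero hx0 hy0) hN0))]
  intro p
  by_cases hp : p.Prime
  swap
  · rw [Nat.factorization_eq_zero_of_not_prime _ hp]
    exact Nat.zero_le _
  rw [Nat.factorization_mul hg0 hR0, Nat.factorization_mul (by positivity)
    (mul_ne_zero (mul_ne_zero hx0 hy0) hN0), Nat.factorization_mul (mul_ne_zero hx0 hy0) hN0,
    Nat.factorization_mul hx0 hy0]
  simp only [Finsupp.add_apply]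
  rw [R_fac]
  have hgf : g.factorization p = min (3 * x.factorization p) (2 * y.factorization p) := by
    rw [hg, Nat.factorization_gcd (pow_ne_zero 3 hx0) (pow_ne_zero 2 hy0)]
    rw [Finsupp.inf_apply, Nat.factorization_pow, Nat.factorization_pow, Finsupp.smul_apply,
      Finsupp.smul_apply, smul_eq_mul, smul_eq_mul]
  rw [hgf]
  obtain ⟨m7, m5⟩ := min_fac hW hp
  rw [← hx, ← hy, hp.pow_dvd_iff_le_factorization hx0, hp.pow_dvd_iff_le_factorization hy0] at m7 m5
  by_cases h7 : 7 ≤ p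
  swap
  · rw [fac30 hp (by omega) 47]
    have := m5 (by omega)
    split_ifs <;> omega
  have m7' := m7 h7
  have hpp : Prime (p : ℤ) := Nat.prime_iff_prime_int.1 hp
  have hdx : (p : ℤ) ∣ W.c₄ ↔ 1 ≤ x.factorization p := by
    rw [← hp.pow_dvd_iff_le_factorization hx0, pow_one, hx]
    exact Int.natCast_dvd
  have hdy : (p : ℤ) ∣ W.c₆ ↔ 1 ≤ y.factorization p := by
    rw [← hp.pow_dvd_iff_le_factorization hy0, pow_one, hy]
    exact Int.natCast_dvd
  by_cases hd : (p : ℤ) ∣ W.Δ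
  · obtain ⟨n1, n2⟩ := N6_fac W hW.1 hp (by omega) hd
    by_cases hd4 : (p : ℤ) ∣ W.c₄
    · have n3 := n2 hd4
      have hd6 : (p : ℤ) ∣ W.c₆ := by
        have h1 := (rel p hp h7).1 hd
        have h2 : (p : ℤ) ∣ W.c₆ ^ 2 := by
          have e : W.c₆ ^ 2 = W.c₄ ^ 3 - (W.c₄ ^ 3 - W.c₆ ^ 2) := by ring
          rw [e]
          exact dvd_sub (dvd_pow hd4 (by norm_num)) h1
        exact hpp.dvd_of_dvd_pow h2
      rw [hdx] at hd4
      rw [hdy] at hd6
      split_ifs <;> omega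
    · rw [hdx] at hd4
      split_ifs <;> omega
  · -- good reduction
    have hnot : ¬ ((p : ℤ) ∣ W.c₄ ∧ (p : ℤ) ∣ W.c₆) := by
      rintro ⟨h1, h2⟩
      exact hd ((rel p hp h7).2 (dvd_sub (dvd_pow h1 (by norm_num)) (dvd_pow h2 (by norm_num))))
    rw [hdx, hdy] at hnot
    split_ifs with hmem
    · have h1 : p ∣ A * B * C := Nat.dvd_of_mem_primeFactors hmem
      have h2 : 1 ≤ x.factorization p ∨ 1 ≤ y.factorization p := by
        rcases (hp.dvd_mul).1 h1 with h2 | h2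
        · rcases (hp.dvd_mul).1 h2 with h3 | h3
          · left
            rw [← hp.pow_dvd_iff_le_factorization hx0, pow_one]
            have : p ∣ x ^ 3 := by rw [← hA]; exact h3.mul_left _
            exact hp.dvd_of_dvd_pow this
          · right
            rw [← hp.pow_dvd_iff_le_factorization hy0, pow_one]
            have : p ∣ y ^ 2 := by rw [← hB]; exact h3.mul_left _
            exact hp.dvd_of_dvd_pow this
        · exfalso
          apply hd
          rw [rel p hp h7, ← W.c_relation, Int.natCast_dvd, ← hC]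
          exact h2.mul_left _
      omega
    · omega

/-- the case `c₄ = 0` -/
theorem local_zero4 {W : WeierstrassCurve ℤ} (hW : IsGlobalMinimal W) (h4 : W.c₄ = 0)
    (h6 : W.c₆ ≠ 0) : W.c₆.natAbs ^ 2 ∣ 30 ^ 46 * N6 W ^ 5 := by
  obtain ⟨y, hy⟩ : ∃ y, y = W.c₆.natAbs := ⟨_, rfl⟩
  rw [← hy]
  have hy0 : y ≠ 0 := by rw [hy]; exact Int.natAbs_ne_zero.2 h6
  have hN0 : N6 W ≠ 0 := (N6_pos W).ne'
  rw [← Nat.factorization_le_iff_dvd (pow_ne_zero 2 hy0) (by positivity)]
  intro p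
  by_cases hp : p.Prime
  swap
  · rw [Nat.factorization_eq_zero_of_not_prime _ hp]
    exact Nat.zero_le _
  rw [Nat.factorization_mul (by positivity) (pow_ne_zero 5 hN0), Nat.factorization_pow,
    Nat.factorization_pow (n := N6 W)]
  simp only [Finsupp.add_apply, Finsupp.smul_apply, smul_eq_mul]
  obtain ⟨m7, m5⟩ := min_fac hW hp
  rw [h4, ← hy, hp.pow_dvd_iff_le_factorization hy0] at m7
  rw [h4, ← hy, hp.pow_dvd_iff_le_factorization hy0] at m5
  simp only [Int.natAbs_zero, dvd_zero, true_and, not_le] at m7 m5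
  by_cases h7 : 7 ≤ p
  swap
  · rw [fac30 hp (by omega) 46]
    have := m5 (by omega)
    omega
  have m7' := m7 h7
  by_cases hd : (p : ℤ) ∣ W.Δ
  · have n2 := (N6_fac W hW.1 hp (by omega) hd).2 (by rw [h4]; exact dvd_zero _)
    omega
  · have h1 : y.factorization p = 0 := by
      apply Nat.factorization_eq_zero_of_not_dvd
      intro h
      apply hd
      rw [rel p hp h7, h4]
      have h2 : (p : ℤ) ∣ W.c₆ := by rw [Int.natCast_dvd, ← hy]; exact h
      exact dvd_sub (dvd_pow (dvd_zero _) (by norm_num)) (dvd_pow h2 (by norm_num))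
    omega

/-- the case `c₆ = 0` -/
theorem local_zero6 {W : WeierstrassCurve ℤ} (hW : IsGlobalMinimal W) (h6 : W.c₆ = 0)
    (h4 : W.c₄ ≠ 0) : W.c₄.natAbs ^ 3 ∣ 30 ^ 45 * N6 W ^ 5 := by
  obtain ⟨y, hy⟩ : ∃ y, y = W.c₄.natAbs := ⟨_, rfl⟩
  rw [← hy]
  have hy0 : y ≠ 0 := by rw [hy]; exact Int.natAbs_ne_zero.2 h4
  have hN0 : N6 W ≠ 0 := (N6_pos W).ne'
  rw [← Nat.factorization_le_iff_dvd (pow_ne_zero 3 hy0) (by positivity)]
  intro p
  by_cases hp : p.Prime
  swap
  · rw [Nat.factorization_eq_zero_of_not_prime _ hp]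
    exact Nat.zero_le _
  rw [Nat.factorization_mul (by positivity) (pow_ne_zero 5 hN0), Nat.factorization_pow,
    Nat.factorization_pow (n := N6 W)]
  simp only [Finsupp.add_apply, Finsupp.smul_apply, smul_eq_mul]
  obtain ⟨m7, m5⟩ := min_fac hW hp
  rw [h6, ← hy, hp.pow_dvd_iff_le_factorization hy0] at m7
  rw [h6, ← hy, hp.pow_dvd_iff_le_factorization hy0] at m5
  simp only [Int.natAbs_zero, dvd_zero, and_true, not_le] at m7 m5
  by_cases h7 : 7 ≤ p
  swap
  · rw [fac30 hp (by omega) 45]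
    have := m5 (by omega)
    omega
  have m7' := m7 h7
  by_cases hd : (p : ℤ) ∣ W.Δ
  · by_cases hd4 : (p : ℤ) ∣ W.c₄
    · have n2 := (N6_fac W hW.1 hp (by omega) hd).2 hd4
      omega
    · have h1 : y.factorization p = 0 := by
        apply Nat.factorization_eq_zero_of_not_dvd
        intro h
        apply hd4
        rw [Int.natCast_dvd, ← hy]
        exact h
      omega
  · have h1 : y.factorization p = 0 := by
      apply Nat.factorization_eq_zero_of_not_dvd
      intro h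
      apply hd
      rw [rel p hp h7, h6]
      have h2 : (p : ℤ) ∣ W.c₄ := by rw [Int.natCast_dvd, ← hy]; exact h
      exact dvd_sub (dvd_pow h2 (by norm_num)) (dvd_pow (dvd_zero _) (by norm_num))
    omega

end Q265.MS
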