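import Mathlib
import Pool.Agent.Q265.MS.Loc
import Pool.Agent.Q241.AC.B

/-! # The abc conjecture implies the modified Szpiro conjecture for all elliptic curves over `ℚ` -/

set_option autoImplicit false

open Finset

namespace Q265.MS

open Q241.AC (R)

/-- the inequality for unordered triples -/
lemma abc_max (h : Q241.AC.ABC) {ε : ℝ} (hε : 0 < ε) : ∃ κ : ℝ, 1 ≤ κ ∧ ∀ A B C : ℕ, 0 < A → 0 < B →
    0 < C → Nat.Coprime A B → (A = B + C ∨ B = A + C ∨ C = A + B) →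
    ((max A B : ℕ) : ℝ) ≤ κ * (R (A * B * C) : ℝ) ^ (1 + ε) := by
  obtain ⟨κ, hκ⟩ := h ε hε
  refine ⟨max κ 1, le_max_right _ _, ?_⟩
  have hmono : ∀ n : ℕ, κ * (R n : ℝ) ^ (1 + ε) ≤ max κ 1 * (R n : ℝ) ^ (1 + ε) := fun n =>
    mul_le_mul_of_nonneg_right (le_max_left _ _) (Real.rpow_nonneg (Nat.cast_nonneg _) _)
  intro A B C hA hB hC hcop hor
  rcases hor with h1 | h1 | h1
  · have h2 : Nat.Coprime B C := by
      rw [h1] at hcop
      exact (Nat.coprime_add_self_left.1 (by rwa [add_comm] at hcop)).symm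
    have h3 := hκ B C A hB hC h2 h1.symm
    rw [show B * C * A = A * B * C by ring] at h3
    have h4 : max A B = A := max_eq_left (by omega)
    rw [h4]
    exact h3.trans (hmono _)
  · have h2 : Nat.Coprime A C := by
      rw [h1] at hcop
      exact Nat.coprime_add_self_right.1 (by rwa [add_comm] at hcop)
    have h3 := hκ A C B hA hC h2 h1.symm
    rw [show A * C * B = A * B * C by ring] at h3
    have h4 : max A B = B := max_eq_right (by omega)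
    rw [h4]
    exact h3.trans (hmono _)
  · have h3 := hκ A B C hA hB hcop h1.symm
    have h4 : ((max A B : ℕ) : ℝ) ≤ C := by
      have : max A B ≤ C := max_le (by omega) (by omega)
      exact_mod_cast this
    exact (h4.trans h3).trans (hmono _)

/-- the quotients by the greatest common divisor -/
lemma triple {W : WeierstrassCurve ℤ} (hΔ : W.Δ ≠ 0) (h4 : W.c₄ ≠ 0) (h6 : W.c₆ ≠ 0) :
    ∃ g A B C : ℕ, g = Nat.gcd (W.c₄.natAbs ^ 3) (W.c₆.natAbs ^ 2) ∧ 0 < g ∧ 0 < A ∧ 0 < B ∧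
      0 < C ∧ g * A = W.c₄.natAbs ^ 3 ∧ g * B = W.c₆.natAbs ^ 2 ∧
      g * C = (1728 * W.Δ).natAbs ∧ Nat.Coprime A B ∧ (A = B + C ∨ B = A + C ∨ C = A + B) := by
  obtain ⟨x, hx⟩ : ∃ x, x = W.c₄.natAbs := ⟨_, rfl⟩
  obtain ⟨y, hy⟩ : ∃ y, y = W.c₆.natAbs := ⟨_, rfl⟩
  rw [← hx, ← hy]
  have hx0 : 0 < x := by rw [hx]; exact Int.natAbs_pos.2 h4
  have hy0 : 0 < y := by rw [hy]; exact Int.natAbs_pos.2 h6
  obtain ⟨g, hg⟩ : ∃ g, g = Nat.gcd (x ^ 3) (y ^ 2) := ⟨_, rfl⟩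
  have hg0 : 0 < g := by rw [hg]; exact Nat.gcd_pos_of_pos_left _ (by positivity)
  obtain ⟨A, hA⟩ : g ∣ x ^ 3 := by rw [hg]; exact Nat.gcd_dvd_left _ _
  obtain ⟨B, hB⟩ : g ∣ y ^ 2 := by rw [hg]; exact Nat.gcd_dvd_right _ _
  have hrel := W.c_relation
  have h3 : W.c₄ ^ 3 = (x : ℤ) ^ 3 ∨ W.c₄ ^ 3 = -(x : ℤ) ^ 3 := by
    rcases Int.natAbs_eq W.c₄ with h | h
    · left; rw [← hx] at h; rw [h]
    · right; rw [← hx] at h; rw [h]; ring
  have h2 : W.c₆ ^ 2 = (y : ℤ) ^ 2 := by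
    rw [hy, Int.natCast_natAbs, sq_abs]
  have hAz : (x : ℤ) ^ 3 = g * A := by exact_mod_cast hA
  have hBz : (y : ℤ) ^ 2 = g * B := by exact_mod_cast hB
  have hC : g ∣ (1728 * W.Δ).natAbs := by
    rw [hrel, h2, hBz, ← Int.natCast_dvd]
    rcases h3 with h3 | h3 <;> rw [h3, hAz]
    · exact ⟨A - B, by ring⟩
    · exact ⟨-A - B, by ring⟩
  obtain ⟨C, hC⟩ := hC
  have hA0 : 0 < A := by
    rcases Nat.eq_zero_or_pos A with h | h
    · rw [h, mul_zero] at hA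
      exact absurd hA (pow_pos hx0 3).ne'
    · exact h
  have hB0 : 0 < B := by
    rcases Nat.eq_zero_or_pos B with h | h
    · rw [h, mul_zero] at hB
      exact absurd hB (pow_pos hy0 2).ne'
    · exact h
  have hC0 : 0 < C := by
    rcases Nat.eq_zero_or_pos C with h | h
    · rw [h, mul_zero] at hC
      have := Int.natAbs_eq_zero.1 hC
      exact absurd this (mul_ne_zero (by norm_num) hΔ)
    · exact h
  have hcop : Nat.Coprime A B := by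
    have h1 : Nat.gcd (g * A) (g * B) = g * 1 := by rw [← hA, ← hB, ← hg, mul_one]
    rw [Nat.gcd_mul_left] at h1
    exact Nat.eq_of_mul_eq_mul_left hg0 h1
  refine ⟨g, A, B, C, hg, hg0, hA0, hB0, hC0, hA.symm, hB.symm, hC.symm, hcop, ?_⟩
  rw [hrel, h2, hBz] at hC
  have hgz : (0 : ℤ) < g := by exact_mod_cast hg0
  rcases h3 with h3 | h3
  · rw [h3, hAz] at hC
    have e : (g : ℤ) * A - g * B = g * (A - B) := by ring
    rw [e, Int.natAbs_mul, Int.natAbs_natCast] at hC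
    have h5 := Nat.eq_of_mul_eq_mul_left hg0 hC
    omega
  · rw [h3, hAz] at hC
    have e : -((g : ℤ) * A) - g * B = g * (-(A + B)) := by ring
    rw [e, Int.natAbs_mul, Int.natAbs_natCast] at hC
    have h5 := Nat.eq_of_mul_eq_mul_left hg0 hC
    omega

/-- the height -/
noncomputable def Hw (W : WeierstrassCurve ℤ) : ℝ := max (|(W.c₄ : ℝ)| ^ 3) ((W.c₆ : ℝ) ^ 2)

lemma Hw_eq (W : WeierstrassCurve ℤ) :
    Hw W = ((max (W.c₄.natAbs ^ 3) (W.c₆.natAbs ^ 2) : ℕ) : ℝ) := by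
  unfold Hw
  push_cast
  rw [Nat.cast_natAbs, Nat.cast_natAbs]
  push_cast
  rw [sq_abs]

/-- **The abc conjecture implies the modified Szpiro conjecture for all curves.** -/
theorem ms_of_abc (h : Q241.AC.ABC) : ∀ ε : ℝ, 0 < ε → ∃ C : ℝ, ∀ W : WeierstrassCurve ℤ,
    IsGlobalMinimal W → Hw W ≤ C * (N6 W : ℝ) ^ (6 + ε) := by
  intro ε hε
  obtain ⟨δ, hδ⟩ : ∃ δ : ℝ, δ = ε / (18 * (6 + ε)) := ⟨_, rfl⟩
  have hδ0 : 0 < δ := by rw [hδ]; positivity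
  obtain ⟨κ, hκ1, hκ⟩ := abc_max h hδ0
  obtain ⟨K, hK⟩ : ∃ K : ℝ, K = κ * 30 ^ 47 * 2 ^ δ := ⟨_, rfl⟩
  have hK0 : 0 < K := by
    rw [hK]
    have : 0 < (2 : ℝ) ^ δ := Real.rpow_pos_of_pos (by norm_num) _
    positivity
  refine ⟨max (K ^ (6 + ε)) (30 ^ 46), fun W hW => ?_⟩
  have hN1 : (1 : ℝ) ≤ N6 W := by exact_mod_cast N6_pos W
  have hNp : (0 : ℝ) ≤ (N6 W : ℝ) ^ (6 + ε) := by positivity
  have hsmall : ∀ n : ℕ, n ∣ 30 ^ 46 * N6 W ^ 5 → (n : ℝ) ≤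
      max (K ^ (6 + ε)) (30 ^ 46) * (N6 W : ℝ) ^ (6 + ε) := by
    intro n hn
    have h1 : n ≤ 30 ^ 46 * N6 W ^ 5 := Nat.le_of_dvd (by have := N6_pos W; positivity) hn
    have h2 : (n : ℝ) ≤ 30 ^ 46 * (N6 W : ℝ) ^ 5 := by exact_mod_cast h1
    have h3 : (N6 W : ℝ) ^ 5 ≤ (N6 W : ℝ) ^ (6 + ε) := by
      rw [← Real.rpow_natCast]
      apply Real.rpow_le_rpow_of_exponent_le hN1
      push_cast
      linarith
    calc (n : ℝ) ≤ 30 ^ 46 * (N6 W : ℝ) ^ 5 := h2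
      _ ≤ 30 ^ 46 * (N6 W : ℝ) ^ (6 + ε) := by gcongr
      _ ≤ _ := by
        gcongr
        exact le_max_right _ _
  by_cases h4 : W.c₄ = 0
  · have h6 : W.c₆ ≠ 0 := by
      intro h6
      apply hW.1
      have := W.c_relation
      rw [h4, h6] at this
      omega
    rw [Hw_eq]
    have e : max (W.c₄.natAbs ^ 3) (W.c₆.natAbs ^ 2) = W.c₆.natAbs ^ 2 := by
      rw [h4]
      simp
    rw [e]
    exact hsmall _ (local_zero4 hW h4 h6)
  by_cases h6 : W.c₆ = 0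
  · rw [Hw_eq]
    have e : max (W.c₄.natAbs ^ 3) (W.c₆.natAbs ^ 2) = W.c₄.natAbs ^ 3 := by
      rw [h6]
      simp
    rw [e]
    refine hsmall _ ((local_zero6 hW h6 h4).trans ?_)
    exact mul_dvd_mul_right (pow_dvd_pow 30 (by norm_num)) _
  obtain ⟨g, A, B, C, hg, hg0, hA0, hB0, hC0, hA, hB, hC, hcop, hor⟩ := triple hW.1 h4 h6
  have hloc := local_ineq hW h4 h6 hg hA hB hC
  obtain ⟨x, hx⟩ : ∃ x, x = W.c₄.natAbs := ⟨_, rfl⟩
  obtain ⟨y, hy⟩ : ∃ y, y = W.c₆.natAbs := ⟨_, rfl⟩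
  rw [Hw_eq]
  rw [← hx] at hA hloc ⊢
  rw [← hy] at hB hloc ⊢
  have hx0 : 0 < x := by rw [hx]; exact Int.natAbs_pos.2 h4
  have hy0 : 0 < y := by rw [hy]; exact Int.natAbs_pos.2 h6
  obtain ⟨M, hM⟩ : ∃ M : ℕ, M = max (x ^ 3) (y ^ 2) := ⟨_, rfl⟩
  rw [← hM]
  have hMx : x ^ 3 ≤ M := by rw [hM]; exact le_max_left _ _
  have hMy : y ^ 2 ≤ M := by rw [hM]; exact le_max_right _ _
  have hM1 : 1 ≤ M := le_trans (Nat.one_le_pow _ _ hx0) hMx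
  have hMr : (1 : ℝ) ≤ M := by exact_mod_cast hM1
  have hMp : (0 : ℝ) < M := by linarith
  have hMg : M = g * max A B := by rw [hM, ← hA, ← hB, Nat.mul_max_mul_left]
  have habc := hκ A B C hA0 hB0 hC0 hcop hor
  obtain ⟨ρ, hρ⟩ : ∃ ρ : ℕ, ρ = R (A * B * C) := ⟨_, rfl⟩
  rw [← hρ] at habc hloc
  have hρ1 : (1 : ℝ) ≤ ρ := by rw [hρ]; exact Q241.AC.R_one_le _
  have hρ0 : (0 : ℝ) < ρ := by linarith
  have hxy : (x : ℝ) * y ≤ (M : ℝ) ^ (5 / 6 : ℝ) := by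
    have h1 : (x : ℝ) ≤ (M : ℝ) ^ (1 / 3 : ℝ) := by
      have h2 : ((x : ℝ) ^ 3) ≤ M := by exact_mod_cast hMx
      calc (x : ℝ) = ((x : ℝ) ^ 3) ^ (1 / 3 : ℝ) := by
            rw [← Real.rpow_natCast, ← Real.rpow_mul (Nat.cast_nonneg _)]
            norm_num
        _ ≤ _ := Real.rpow_le_rpow (by positivity) h2 (by norm_num)
    have h1' : (y : ℝ) ≤ (M : ℝ) ^ (1 / 2 : ℝ) := by
      have h2 : ((y : ℝ) ^ 2) ≤ M := by exact_mod_cast hMy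
      calc (y : ℝ) = ((y : ℝ) ^ 2) ^ (1 / 2 : ℝ) := by
            rw [← Real.rpow_natCast, ← Real.rpow_mul (Nat.cast_nonneg _)]
            norm_num
        _ ≤ _ := Real.rpow_le_rpow (by positivity) h2 (by norm_num)
    calc (x : ℝ) * y ≤ (M : ℝ) ^ (1 / 3 : ℝ) * (M : ℝ) ^ (1 / 2 : ℝ) := by gcongr
      _ = _ := by rw [← Real.rpow_add hMp]; norm_num
  have hρM : (ρ : ℝ) ^ δ ≤ 2 ^ δ * (M : ℝ) ^ (3 * δ) := by
    have h1 : (ρ : ℝ) ≤ 2 * (M : ℝ) ^ 3 := by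
      have h2 : ρ ≤ A * B * C := by rw [hρ]; exact Q241.AC.R_le (by positivity)
      have h3 : A ≤ M := by
        calc A ≤ g * A := Nat.le_mul_of_pos_left _ hg0
          _ ≤ M := by rw [hA]; exact hMx
      have h3' : B ≤ M := by
        calc B ≤ g * B := Nat.le_mul_of_pos_left _ hg0
          _ ≤ M := by rw [hB]; exact hMy
      have h4 : C ≤ 2 * M := by omega
      have h5 : A * B * C ≤ M * M * (2 * M) := Nat.mul_le_mul (Nat.mul_le_mul h3 h3') h4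
      have h6 : ρ ≤ 2 * M ^ 3 := by
        calc ρ ≤ M * M * (2 * M) := h2.trans h5
          _ = 2 * M ^ 3 := by ring
      exact_mod_cast h6
    calc (ρ : ℝ) ^ δ ≤ (2 * (M : ℝ) ^ 3) ^ δ := Real.rpow_le_rpow hρ0.le h1 hδ0.le
      _ = 2 ^ δ * (M : ℝ) ^ (3 * δ) := by
        rw [Real.mul_rpow (by norm_num) (by positivity), ← Real.rpow_natCast, ← Real.rpow_mul hMp.le]
        norm_num
  have hgρ : (g : ℝ) * ρ ≤ 30 ^ 47 * ((x : ℝ) * y * N6 W) := by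
    have h1 : g * ρ ≤ 30 ^ 47 * (x * y * N6 W) :=
      Nat.le_of_dvd (by have := N6_pos W; positivity) hloc
    exact_mod_cast h1
  have hmain : (M : ℝ) ≤ K * N6 W * (M : ℝ) ^ (5 / 6 + 3 * δ) := by
    have h1 : (M : ℝ) ≤ g * (κ * (ρ : ℝ) ^ (1 + δ)) := by
      have h2 : (M : ℝ) = g * ((max A B : ℕ) : ℝ) := by exact_mod_cast hMg
      rw [h2]
      gcongr
    calc (M : ℝ) ≤ g * (κ * (ρ : ℝ) ^ (1 + δ)) := h1
      _ = κ * ((g * ρ) * (ρ : ℝ) ^ δ) := by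
        rw [Real.rpow_add hρ0, Real.rpow_one]
        ring
      _ ≤ κ * ((30 ^ 47 * ((x : ℝ) * y * N6 W)) * (2 ^ δ * (M : ℝ) ^ (3 * δ))) := by gcongr
      _ ≤ κ * ((30 ^ 47 * ((M : ℝ) ^ (5 / 6 : ℝ) * N6 W)) * (2 ^ δ * (M : ℝ) ^ (3 * δ))) := by gcongr
      _ = K * N6 W * ((M : ℝ) ^ (5 / 6 : ℝ) * (M : ℝ) ^ (3 * δ)) := by rw [hK]; ring
      _ = _ := by rw [← Real.rpow_add hMp]
  have hexp : (1 : ℝ) = 1 / (6 + ε) + (5 / 6 + 3 * δ) := by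
    rw [hδ]
    field_simp
    ring
  have hroot : (M : ℝ) ^ (1 / (6 + ε)) ≤ K * N6 W := by
    have h1 : (M : ℝ) = (M : ℝ) ^ (1 / (6 + ε)) * (M : ℝ) ^ (5 / 6 + 3 * δ) := by
      rw [← Real.rpow_add hMp, ← hexp, Real.rpow_one]
    have h2 : (M : ℝ) ^ (1 / (6 + ε)) * (M : ℝ) ^ (5 / 6 + 3 * δ) ≤
        K * N6 W * (M : ℝ) ^ (5 / 6 + 3 * δ) := by rw [← h1]; exact hmain
    exact le_of_mul_le_mul_right h2 (Real.rpow_pos_of_pos hMp _)
  calc (M : ℝ) = ((M : ℝ) ^ (1 / (6 + ε))) ^ (6 + ε) := by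
        rw [← Real.rpow_mul hMp.le, one_div_mul_cancel (by positivity), Real.rpow_one]
    _ ≤ (K * N6 W) ^ (6 + ε) := Real.rpow_le_rpow (Real.rpow_nonneg hMp.le _) hroot (by positivity)
    _ = K ^ (6 + ε) * (N6 W : ℝ) ^ (6 + ε) := Real.mul_rpow hK0.le (by positivity)
    _ ≤ _ := by
      gcongr
      exact le_max_left _ _

end Q265.MS
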