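import Mathlib
import Pool.Agent.Q265.MS.All
import Pool.Agent.Q241.AC.B

/-! # The curve of a triple -/

set_option autoImplicit false

open Finset

namespace Q265.MS

open Q241.AC (R Tri)

/-- a semistable equation is minimal -/
theorem minimal_of_coprime {W : WeierstrassCurve ℤ} (h0 : W.Δ ≠ 0) (h : IsCoprime W.c₄ W.Δ) :
    IsGlobalMinimal W := by
  refine ⟨h0, ?_⟩
  rintro W' ⟨C, hC⟩
  set v : ℚ := ((C.u⁻¹ : ℚˣ) : ℚ) with hv
  have hv0 : v ≠ 0 := Units.ne_zero _
  have e4 : (W'.c₄ : ℚ) = v ^ 4 * (W.c₄ : ℚ) := by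
    have := congrArg WeierstrassCurve.c₄ hC
    rw [WeierstrassCurve.variableChange_c₄, WeierstrassCurve.map_c₄, WeierstrassCurve.map_c₄] at this
    simpa only [eq_intCast] using this.symm
  have eΔ : (W'.Δ : ℚ) = v ^ 12 * (W.Δ : ℚ) := by
    have := congrArg WeierstrassCurve.Δ hC
    rw [WeierstrassCurve.variableChange_Δ, WeierstrassCurve.map_Δ, WeierstrassCurve.map_Δ] at this
    simpa only [eq_intCast] using this.symm
  have hcop : IsCoprime v.num (v.den : ℤ) := by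
    rw [Int.isCoprime_iff_gcd_eq_one]
    exact v.reduced
  have hv' : v = v.num / v.den := (Rat.num_div_den v).symm
  have hd0 : (v.den : ℚ) ≠ 0 := by exact_mod_cast v.den_pos.ne'
  have f4 : W'.c₄ * (v.den : ℤ) ^ 4 = v.num ^ 4 * W.c₄ := by
    rw [hv'] at e4
    field_simp at e4
    exact_mod_cast e4
  have fΔ : W'.Δ * (v.den : ℤ) ^ 12 = v.num ^ 12 * W.Δ := by
    rw [hv'] at eΔ
    field_simp at eΔ
    exact_mod_cast eΔ
  have g4 : (v.den : ℤ) ∣ W.c₄ := by
    have h1 : (v.den : ℤ) ∣ v.num ^ 4 * W.c₄ := by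
      rw [← f4]
      exact Dvd.intro_left (W'.c₄ * (v.den : ℤ) ^ 3) (by ring)
    exact hcop.symm.pow_right.dvd_of_dvd_mul_left h1
  have gΔ : (v.den : ℤ) ∣ W.Δ := by
    have h1 : (v.den : ℤ) ∣ v.num ^ 12 * W.Δ := by
      rw [← fΔ]
      exact Dvd.intro_left (W'.Δ * (v.den : ℤ) ^ 11) (by ring)
    exact hcop.symm.pow_right.dvd_of_dvd_mul_left h1
  have hu := h.isUnit_of_dvd' g4 gΔ
  have hden : v.den = 1 := by
    have := Int.isUnit_iff_natAbs_eq.1 hu
    simpa using this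
  rw [hden] at fΔ
  have h1 : W'.Δ = v.num ^ 12 * W.Δ := by simpa using fΔ
  have h2 : v.num ≠ 0 := Rat.num_ne_zero.2 hv0
  rw [h1, abs_mul, abs_pow]
  have h3 : (1 : ℤ) ≤ |v.num| := Int.one_le_abs h2
  exact le_mul_of_one_le_left (abs_nonneg _) (one_le_pow₀ h3)

/-- the rational roots of the 2-division polynomial -/
def IsRoots (W : WeierstrassCurve ℤ) (r₁ r₂ r₃ : ℚ) : Prop :=
  ∀ x : ℚ, 4 * x ^ 3 + W.b₂ * x ^ 2 + 2 * W.b₄ * x + W.b₆ = 4 * (x - r₁) * (x - r₂) * (x - r₃)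

/-- the minimal model of `y² = x (x - A) (x + B)`, `A = 4 m - 1`, `B = 16 n` -/
def frey (m n : ℤ) : WeierstrassCurve ℤ := ⟨1, 4 * n - m, 0, -((4 * m - 1) * n), 0⟩

theorem frey_roots (m n : ℤ) : IsRoots (frey m n) 0 ((4 * m - 1) / 4) (-(16 * n) / 4) := by
  intro x
  simp only [frey, WeierstrassCurve.b₂, WeierstrassCurve.b₄, WeierstrassCurve.b₆]
  push_cast
  ring

theorem frey_c₄ (m n : ℤ) : (frey m n).c₄ =
    (4 * m - 1) ^ 2 + (4 * m - 1) * (16 * n) + (16 * n) ^ 2 := by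
  simp only [frey, WeierstrassCurve.c₄, WeierstrassCurve.b₂, WeierstrassCurve.b₄]
  ring

theorem frey_c₆ (m n : ℤ) : 2 * (frey m n).c₆ =
    -(16 * n - (4 * m - 1)) * (2 * (16 * n - (4 * m - 1)) ^ 2 + 9 * ((4 * m - 1) * (16 * n))) := by
  simp only [frey, WeierstrassCurve.c₆, WeierstrassCurve.b₂, WeierstrassCurve.b₄,
    WeierstrassCurve.b₆]
  ring

theorem frey_Δ (m n : ℤ) : 256 * (frey m n).Δ =
    ((4 * m - 1) * (16 * n) * (4 * m - 1 + 16 * n)) ^ 2 := by
  simp only [frey, WeierstrassCurve.Δ, WeierstrassCurve.b₂, WeierstrassCurve.b₄,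
    WeierstrassCurve.b₆, WeierstrassCurve.b₈]
  ring

theorem frey_coprime (m n : ℤ) (h : IsCoprime (4 * m - 1) (16 * n)) :
    IsCoprime (frey m n).c₄ (frey m n).Δ := by
  have hΔ : (frey m n).Δ = ((4 * m - 1) * n * (4 * m - 1 + 16 * n)) ^ 2 := by
    have h1 := frey_Δ m n
    have h2 : ((4 * m - 1) * (16 * n) * (4 * m - 1 + 16 * n)) ^ 2 =
      256 * ((4 * m - 1) * n * (4 * m - 1 + 16 * n)) ^ 2 := by ring
    omega
  rw [frey_c₄, hΔ]
  set A : ℤ := 4 * m - 1
  have h1 : IsCoprime (A ^ 2 + A * (16 * n) + (16 * n) ^ 2) A := by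
    have h2 : IsCoprime ((16 * n) ^ 2 + A * (A + 16 * n)) A :=
      IsCoprime.add_mul_left_left h.symm.pow_left _
    have e : A ^ 2 + A * (16 * n) + (16 * n) ^ 2 = (16 * n) ^ 2 + A * (A + 16 * n) := by ring
    rwa [e]
  have h2 : IsCoprime (A ^ 2 + A * (16 * n) + (16 * n) ^ 2) (16 * n) := by
    have h2 : IsCoprime (A ^ 2 + (16 * n) * (A + 16 * n)) (16 * n) :=
      IsCoprime.add_mul_left_left h.pow_left _
    have e : A ^ 2 + A * (16 * n) + (16 * n) ^ 2 = A ^ 2 + (16 * n) * (A + 16 * n) := by ring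
    rwa [e]
  have h3 : IsCoprime (A ^ 2 + A * (16 * n) + (16 * n) ^ 2) (A + 16 * n) := by
    have h4 : IsCoprime (A + 16 * n) A := by
      have h5 : IsCoprime (16 * n + A * 1) A := IsCoprime.add_mul_left_left h.symm _
      have e : A + 16 * n = 16 * n + A * 1 := by ring
      rwa [e]
    have h6 : IsCoprime (A + 16 * n) (16 * n) := by
      have h5 : IsCoprime (A + (16 * n) * 1) (16 * n) := IsCoprime.add_mul_left_left h _
      have e : A + 16 * n = A + (16 * n) * 1 := by ring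
      rwa [e]
    have h7 : IsCoprime (A + 16 * n) (-(A * (16 * n))) := (h4.mul_right h6).neg_right
    have h8 : IsCoprime (-(A * (16 * n)) + (A + 16 * n) * (A + 16 * n)) (A + 16 * n) :=
      IsCoprime.add_mul_left_left h7.symm _
    have e : A ^ 2 + A * (16 * n) + (16 * n) ^ 2 =
        -(A * (16 * n)) + (A + 16 * n) * (A + 16 * n) := by ring
    rwa [e]
  have h4 : IsCoprime (A ^ 2 + A * (16 * n) + (16 * n) ^ 2) n := h2.of_mul_right_right
  exact ((h1.mul_right h4).mul_right h3).pow_right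

/-- the conductor of a semistable curve -/
theorem N6_le {W : WeierstrassCurve ℤ} (h : IsCoprime W.c₄ W.Δ) (n : ℕ)
    (hn0 : n ≠ 0) (hn : ∀ p : ℕ, p.Prime → 5 ≤ p → (p : ℤ) ∣ W.Δ → p ∣ n) : N6 W ≤ R n := by
  unfold N6 R
  have h1 : ∀ p ∈ W.Δ.natAbs.primeFactors.filter (fun p => 5 ≤ p),
      (if (p : ℤ) ∣ W.c₄ then p ^ 2 else p) = p := by
    intro p hp
    rw [mem_filter, Nat.mem_primeFactors] at hp
    rw [if_neg]
    intro h2
    have h3 := h.isUnit_of_dvd' h2 (Int.natCast_dvd.2 hp.1.2.1)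
    exact hp.1.1.one_lt.ne' (by simpa using Int.isUnit_iff_natAbs_eq.1 h3)
  rw [prod_congr rfl h1]
  apply prod_le_prod_of_subset_of_one_le'
  · intro p hp
    rw [mem_filter, Nat.mem_primeFactors] at hp
    rw [Nat.mem_primeFactors]
    exact ⟨hp.1.1, hn p hp.1.1 hp.2 (Int.natCast_dvd.2 hp.1.2.1), hn0⟩
  · intro p hp _
    exact (Nat.prime_of_mem_primeFactors hp).one_lt.le

/-- sixth powers up to a small factor -/
theorem sixth {Δ D s : ℤ} (h : 256 * Δ = D * s ^ 6) : ∃ D' s' : ℤ, Δ = D' * s' ^ 6 ∧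
    |D'| ≤ 16 * |D| := by
  rcases Int.emod_two_eq_zero_or_one s with h2 | h2
  · obtain ⟨t, rfl⟩ : (2 : ℤ) ∣ s := Int.dvd_of_emod_eq_zero h2
    rcases Int.emod_two_eq_zero_or_one t with h3 | h3
    · obtain ⟨r, rfl⟩ : (2 : ℤ) ∣ t := Int.dvd_of_emod_eq_zero h3
      refine ⟨16 * D, r, ?_, by rw [abs_mul]; norm_num⟩
      have e : D * (2 * (2 * r)) ^ 6 = 256 * (16 * D * r ^ 6) := by ring
      rw [e] at h
      exact mul_left_cancel₀ (by norm_num) h
    · have e : D * (2 * t) ^ 6 = 64 * (D * t ^ 6) := by ring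
      have h4 : 4 * Δ = D * t ^ 6 := by
        rw [e] at h
        omega
      have h5 : IsCoprime (4 : ℤ) (t ^ 6) := by
        have h6 : IsCoprime (2 : ℤ) t := by
          rw [Int.isCoprime_iff_gcd_eq_one]
          have : Nat.Coprime 2 t.natAbs := by
            rw [Nat.coprime_two_left]
            exact Nat.odd_iff.2 (by omega)
          exact this
        have e4 : (4 : ℤ) = 2 ^ 2 := by norm_num
        rw [e4]
        exact h6.pow
      obtain ⟨E, hE⟩ := h5.dvd_of_dvd_mul_right (Dvd.intro Δ h4 : (4 : ℤ) ∣ D * t ^ 6)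
      refine ⟨E, t, ?_, ?_⟩
      · rw [hE] at h4
        have : 4 * Δ = 4 * (E * t ^ 6) := by rw [h4]; ring
        exact mul_left_cancel₀ (by norm_num) this
      · rw [hE, abs_mul]
        have := abs_nonneg E
        norm_num
        linarith
  · have h5 : IsCoprime (256 : ℤ) (s ^ 6) := by
      have h6 : IsCoprime (2 : ℤ) s := by
        rw [Int.isCoprime_iff_gcd_eq_one]
        have : Nat.Coprime 2 s.natAbs := by
          rw [Nat.coprime_two_left]
          exact Nat.odd_iff.2 (by omega)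
        exact this
      have e4 : (256 : ℤ) = 2 ^ 8 := by norm_num
      rw [e4]
      exact h6.pow
    obtain ⟨E, hE⟩ := h5.dvd_of_dvd_mul_right (Dvd.intro Δ h : (256 : ℤ) ∣ D * s ^ 6)
    refine ⟨E, s, ?_, ?_⟩
    · rw [hE] at h
      have : 256 * Δ = 256 * (E * s ^ 6) := by rw [h]; ring
      exact mul_left_cancel₀ (by norm_num) this
    · rw [hE, abs_mul]
      have := abs_nonneg E
      norm_num
      linarith

end Q265.MS
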