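import Mathlib
import Pool.Agent.Q265.MS.Frey

/-! # The curve of a triple, continued -/

set_option autoImplicit false

open Finset

namespace Q265.MS

open Q241.AC (R Tri H Ht Rt)

lemma core_curve {A B : ℤ} (hcop : IsCoprime A B) (hA : A % 2 = 1) (hB : (16 : ℤ) ∣ B)
    (hA0 : A ≠ 0) (hB0 : B ≠ 0) (hAB : A + B ≠ 0) : ∃ W : WeierstrassCurve ℤ, W.Δ ≠ 0 ∧
    IsCoprime W.c₄ W.Δ ∧ (∃ r₁ r₂ r₃ : ℚ, IsRoots W r₁ r₂ r₃) ∧
    256 * W.Δ = (A * B * (A + B)) ^ 2 ∧ W.c₄ = A ^ 2 + A * B + B ^ 2 := by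
  have key : ∀ A B : ℤ, IsCoprime A B → A % 4 = 3 → (16 : ℤ) ∣ B → A ≠ 0 → B ≠ 0 → A + B ≠ 0 →
      ∃ W : WeierstrassCurve ℤ, W.Δ ≠ 0 ∧
      IsCoprime W.c₄ W.Δ ∧ (∃ r₁ r₂ r₃ : ℚ, IsRoots W r₁ r₂ r₃) ∧
      256 * W.Δ = (A * B * (A + B)) ^ 2 ∧ W.c₄ = A ^ 2 + A * B + B ^ 2 := by
    intro A B hcop hA hB hA0 hB0 hAB
    obtain ⟨m, hm⟩ : ∃ m : ℤ, A = 4 * m - 1 := ⟨(A + 1) / 4, by omega⟩
    obtain ⟨n, hn⟩ := hB
    subst hn
    have hΔ := frey_Δ m n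
    rw [← hm] at hΔ
    refine ⟨frey m n, ?_, frey_coprime m n (by rw [← hm]; exact hcop), ⟨_, _, _, frey_roots m n⟩,
      hΔ, by rw [frey_c₄, ← hm]⟩
    intro h0
    rw [h0, mul_zero] at hΔ
    exact pow_ne_zero 2 (mul_ne_zero (mul_ne_zero hA0 hB0) hAB) hΔ.symm
  rcases (by omega : A % 4 = 3 ∨ (-A) % 4 = 3) with h | h
  · exact key A B hcop h hB hA0 hB0 hAB
  · obtain ⟨W, h1, h2, h3, h4, h5⟩ := key (-A) (-B) hcop.neg_neg h ((dvd_neg).2 hB)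
      (neg_ne_zero.2 hA0) (neg_ne_zero.2 hB0) (by intro h0; apply hAB; linarith)
    exact ⟨W, h1, h2, h3, by rw [h4]; ring, by rw [h5]; ring⟩

/-- **The curve of a triple** whose product is divisible by `16` -/
theorem curve_of {a b c : ℤ} (h : Tri a b c) (h16 : (16 : ℤ) ∣ a ∨ (16 : ℤ) ∣ b ∨ (16 : ℤ) ∣ c) :
    ∃ W : WeierstrassCurve ℤ, W.Δ ≠ 0 ∧
    IsCoprime W.c₄ W.Δ ∧ (∃ r₁ r₂ r₃ : ℚ, IsRoots W r₁ r₂ r₃) ∧
    256 * W.Δ = (a * b * c) ^ 2 ∧ 2 * W.c₄ = a ^ 2 + b ^ 2 + c ^ 2 := by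
  have hodd : ∀ p q : ℤ, IsCoprime p q → (16 : ℤ) ∣ p → q % 2 = 1 := by
    intro p q hpq hp
    by_contra hq
    have h1 : (2 : ℤ) ∣ q := Int.dvd_of_emod_eq_zero (by omega)
    have h2 : (2 : ℤ) ∣ p := (by norm_num : (2 : ℤ) ∣ 16).trans hp
    have h3 := hpq.isUnit_of_dvd' h2 h1
    exact absurd h3 (by decide)
  have hsum := h.sum
  rcases h16 with h1 | h1 | h1
  · obtain ⟨W, g1, g2, g3, g4, g5⟩ := core_curve h.cop.symm (hodd a b h.cop h1) h1 h.hb h.ha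
      (by intro h0; exact h.hc (by linarith))
    have e : b + a = -c := by linarith
    refine ⟨W, g1, g2, g3, by rw [g4, e]; ring, ?_⟩
    have e2 : c = -(b + a) := by linarith
    rw [g5, e2]
    ring
  · obtain ⟨W, g1, g2, g3, g4, g5⟩ := core_curve h.cop (hodd b a h.cop.symm h1) h1 h.ha h.hb
      (by intro h0; exact h.hc (by linarith))
    have e : a + b = -c := by linarith
    refine ⟨W, g1, g2, g3, by rw [g4, e]; ring, ?_⟩
    have e2 : c = -(a + b) := by linarith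
    rw [g5, e2]
    ring
  · obtain ⟨W, g1, g2, g3, g4, g5⟩ := core_curve h.copac (hodd c a h.copac.symm h1) h1 h.ha h.hc
      (by intro h0; exact h.hb (by linarith))
    have e : a + c = -b := by linarith
    refine ⟨W, g1, g2, g3, by rw [g4, e]; ring, ?_⟩
    have e2 : b = -(a + c) := by linarith
    rw [g5, e2]
    ring

/-- height and conductor of the curve of a triple -/
theorem curve_spec {a b c : ℤ} (h : Tri a b c)
    (h16 : (16 : ℤ) ∣ a ∨ (16 : ℤ) ∣ b ∨ (16 : ℤ) ∣ c) :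
    ∃ W : WeierstrassCurve ℤ, IsGlobalMinimal W ∧ IsCoprime W.c₄ W.Δ ∧
      (∃ r₁ r₂ r₃ : ℚ, IsRoots W r₁ r₂ r₃) ∧ 256 * W.Δ = (a * b * c) ^ 2 ∧
      H a b c ^ 6 ≤ 8 * Hw W ∧ Hw W ≤ 4 * H a b c ^ 6 ∧ N6 W ≤ R (a * b * c).natAbs := by
  obtain ⟨W, h1, h2, h3, h4, h5⟩ := curve_of h h16
  refine ⟨W, minimal_of_coprime h1 h2, h2, h3, h4, ?_, ?_, ?_⟩
  · -- lower bound for the height
    have h5r : 2 * (W.c₄ : ℝ) = (a : ℝ) ^ 2 + (b : ℝ) ^ 2 + (c : ℝ) ^ 2 := by exact_mod_cast h5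
    have hH : H a b c ^ 2 ≤ 2 * (W.c₄ : ℝ) := by
      rw [h5r]
      have k1 := sq_nonneg (a : ℝ)
      have k2 := sq_nonneg (b : ℝ)
      have k3 := sq_nonneg (c : ℝ)
      unfold H
      rcases max_cases (max |(a : ℝ)| |(b : ℝ)|) |(c : ℝ)| with ⟨m1, _⟩ | ⟨m1, _⟩
      · rw [m1]
        rcases max_cases |(a : ℝ)| |(b : ℝ)| with ⟨m2, _⟩ | ⟨m2, _⟩
        · rw [m2, sq_abs]; linarith
        · rw [m2, sq_abs]; linarith
      · rw [m1, sq_abs]; linarith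
    have hc0 : 0 ≤ (W.c₄ : ℝ) := by
      have := sq_nonneg (H a b c)
      linarith
    calc H a b c ^ 6 = (H a b c ^ 2) ^ 3 := by ring
      _ ≤ (2 * (W.c₄ : ℝ)) ^ 3 := by
        have := sq_nonneg (H a b c)
        gcongr
      _ = 8 * |(W.c₄ : ℝ)| ^ 3 := by rw [abs_of_nonneg hc0]; ring
      _ ≤ 8 * Hw W := by
        have := le_max_left (|(W.c₄ : ℝ)| ^ 3) ((W.c₆ : ℝ) ^ 2)
        unfold Hw
        linarith
  · have h5r : 2 * (W.c₄ : ℝ) = (a : ℝ) ^ 2 + (b : ℝ) ^ 2 + (c : ℝ) ^ 2 := by exact_mod_cast h5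
    have k1 : (a : ℝ) ^ 2 ≤ H a b c ^ 2 := by
      rw [← sq_abs (a : ℝ)]
      exact pow_le_pow_left₀ (abs_nonneg _) (Q241.AC.le_H1 a b c) 2
    have k2 : (b : ℝ) ^ 2 ≤ H a b c ^ 2 := by
      rw [← sq_abs (b : ℝ)]
      exact pow_le_pow_left₀ (abs_nonneg _) (Q241.AC.le_H2 a b c) 2
    have k3 : (c : ℝ) ^ 2 ≤ H a b c ^ 2 := by
      rw [← sq_abs (c : ℝ)]
      exact pow_le_pow_left₀ (abs_nonneg _) (Q241.AC.le_H3 a b c) 2
    have hc0 : 0 ≤ (W.c₄ : ℝ) := by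
      have q1 := sq_nonneg (a : ℝ)
      have q2 := sq_nonneg (b : ℝ)
      have q3 := sq_nonneg (c : ℝ)
      linarith
    have hc1 : (W.c₄ : ℝ) ≤ 3 / 2 * H a b c ^ 2 := by linarith
    have hc3 : (W.c₄ : ℝ) ^ 3 ≤ 4 * H a b c ^ 6 := by
      calc (W.c₄ : ℝ) ^ 3 ≤ (3 / 2 * H a b c ^ 2) ^ 3 := pow_le_pow_left₀ hc0 hc1 3
        _ = 27 / 8 * H a b c ^ 6 := by ring
        _ ≤ 4 * H a b c ^ 6 := by
          have : 0 ≤ H a b c ^ 6 := by positivity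
          linarith
    apply max_le
    · rw [abs_of_nonneg hc0]
      exact hc3
    · have hrel : 1728 * (W.Δ : ℝ) = (W.c₄ : ℝ) ^ 3 - (W.c₆ : ℝ) ^ 2 := by
        exact_mod_cast W.c_relation
      have h4r : 256 * (W.Δ : ℝ) = ((a : ℝ) * b * c) ^ 2 := by exact_mod_cast h4
      have := sq_nonneg ((a : ℝ) * b * c)
      linarith
  · refine N6_le h2 _ (Int.natAbs_ne_zero.2 (mul_ne_zero (mul_ne_zero h.ha h.hb) h.hc)) ?_
    intro p hp _ hd
    have hpp : Prime (p : ℤ) := Nat.prime_iff_prime_int.1 hp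
    rw [← Int.natCast_dvd]
    apply hpp.dvd_of_dvd_pow (n := 2)
    rw [← h4]
    exact hd.mul_left _

/-- **The duplication of a triple** with the divisibility by `16` -/
theorem dup16 {a b c : ℤ} (h : Tri a b c) (hH : 2 < H a b c) :
    ∃ X Y Z : ℤ, Tri (a * X ^ 3) (b * Y ^ 3) (c * Z ^ 3) ∧
      H a b c ^ 4 ≤ 81 * H (a * X ^ 3) (b * Y ^ 3) (c * Z ^ 3) ∧
      H (a * X ^ 3) (b * Y ^ 3) (c * Z ^ 3) ≤ 8 * H a b c ^ 4 ∧
      (R (a * X ^ 3 * (b * Y ^ 3) * (c * Z ^ 3)).natAbs : ℝ) ≤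
        R (a * b * c).natAbs * (8 * H a b c ^ 3) ∧
      ((16 : ℤ) ∣ a * X ^ 3 ∨ (16 : ℤ) ∣ b * Y ^ 3 ∨ (16 : ℤ) ∣ c * Z ^ 3) := by
  -- the common factor
  obtain ⟨g, X, Y, Z, hg, hX, hY, hZ, hXY⟩ : ∃ g X Y Z : ℤ, (g = 1 ∨ g = 3) ∧ b - c = g * X ∧
      c - a = g * Y ∧ a - b = g * Z ∧ IsCoprime X Y := by
    obtain ⟨u, v, huv⟩ := h.cop
    have hsum := h.sum
    -- `3` is a combination of the differences
    have h3 : (2 * v - u) * (b - c) + (v - 2 * u) * (c - a) = 3 := by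
      have hc : c = -a - b := by linarith
      rw [hc]
      linear_combination 3 * huv
    by_cases hd : (3 : ℤ) ∣ b - c
    · obtain ⟨X, hX⟩ := hd
      have hY : (3 : ℤ) ∣ c - a := ⟨c + X, by linarith⟩
      obtain ⟨Y, hY⟩ := hY
      have hZ : (3 : ℤ) ∣ a - b := ⟨-X - Y, by linarith⟩
      obtain ⟨Z, hZ⟩ := hZ
      refine ⟨3, X, Y, Z, Or.inr rfl, hX, hY, hZ, ⟨2 * v - u, v - 2 * u, ?_⟩⟩
      rw [hX, hY] at h3
      linarith
    · refine ⟨1, b - c, c - a, a - b, Or.inl rfl, by ring, by ring, by ring, ?_⟩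
      have hp : Prime (3 : ℤ) := Int.prime_three
      have h4 : IsCoprime (3 : ℤ) (b - c) := (Prime.coprime_iff_not_dvd hp).2 hd
      rw [← h3] at h4
      have h5 : IsCoprime ((v - 2 * u) * (c - a)) (b - c) := by
        have := h4.neg_left
        have e : (v - 2 * u) * (c - a) =
            (2 * v - u) * (b - c) + (v - 2 * u) * (c - a) + (b - c) * (-(2 * v - u)) := by ring
        rw [e]
        exact h4.add_mul_left_left _
      exact (h5.of_mul_left_right).symm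
  have hg0 : g ≠ 0 := by rcases hg with h1 | h1 <;> rw [h1] <;> norm_num
  have hg1 : (1 : ℝ) ≤ |(g : ℝ)| := Q241.AC.one_le_abs hg0
  have hg3 : |(g : ℝ)| ≤ 3 := by rcases hg with h1 | h1 <;> rw [h1] <;> norm_num
  -- real relations
  have hXr : (b : ℝ) - c = g * X := by exact_mod_cast hX
  have hYr : (c : ℝ) - a = g * Y := by exact_mod_cast hY
  have hZr : (a : ℝ) - b = g * Z := by exact_mod_cast hZ
  have hsr : (a : ℝ) + b + c = 0 := by exact_mod_cast h.sum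
  have hH0 : 0 < H a b c := by linarith
  have habs : ∀ s t : ℝ, |s| ≤ H a b c → |t| ≤ H a b c → |s - t| ≤ 2 * H a b c := by
    intro s t h1 h2
    have := abs_sub s t
    linarith
  -- nonzero
  have hne : ∀ a b c : ℤ, Tri a b c → 2 < H a b c → b - c ≠ 0 := by
    intro a b c h hH h0
    have h1 : b = c := by linarith
    subst h1
    have h2 : a = -2 * b := by have := h.sum; linarith
    have h3 : IsUnit b := isCoprime_self.1 h.copbc
    rw [Int.isUnit_iff] at h3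
    rcases h3 with h3 | h3 <;> subst h3 <;> norm_num [H, h2] at hH
  have hTb : Tri b c a := ⟨by have := h.sum; linarith, h.hb, h.hc, h.ha, h.copbc⟩
  have hTc : Tri c a b := ⟨by have := h.sum; linarith, h.hc, h.ha, h.hb, h.copac.symm⟩
  have hHb : H b c a = H a b c := by unfold H; rw [max_comm, ← max_assoc]
  have hHc : H c a b = H a b c := by unfold H; rw [max_assoc, max_comm]
  have hX0 : X ≠ 0 := by
    intro h0
    rw [h0, mul_zero] at hX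
    exact hne a b c h hH hX
  have hY0 : Y ≠ 0 := by
    intro h0
    rw [h0, mul_zero] at hY
    exact hne b c a hTb (by rw [hHb]; exact hH) hY
  have hZ0 : Z ≠ 0 := by
    intro h0
    rw [h0, mul_zero] at hZ
    exact hne c a b hTc (by rw [hHc]; exact hH) hZ
  have hsum' : a * X ^ 3 + b * Y ^ 3 + c * Z ^ 3 = 0 := by
    have h1 : g ^ 3 * (a * X ^ 3 + b * Y ^ 3 + c * Z ^ 3) = 0 := by
      have e : g ^ 3 * (a * X ^ 3 + b * Y ^ 3 + c * Z ^ 3) =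
          a * (g * X) ^ 3 + b * (g * Y) ^ 3 + c * (g * Z) ^ 3 := by ring
      rw [e, ← hX, ← hY, ← hZ]
      have hc : c = -a - b := by have := h.sum; linarith
      rw [hc]
      ring
    exact (mul_eq_zero.1 h1).resolve_left (pow_ne_zero 3 hg0)
  have h16 : ((16 : ℤ) ∣ a * X ^ 3 ∨ (16 : ℤ) ∣ b * Y ^ 3 ∨ (16 : ℤ) ∣ c * Z ^ 3) := by
    have hodd : ∀ p q : ℤ, IsCoprime p q → p % 2 = 0 → q % 2 = 1 := by
      intro p q hpq hp
      by_contra hq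
      exact absurd (hpq.isUnit_of_dvd' (Int.dvd_of_emod_eq_zero hp)
        (Int.dvd_of_emod_eq_zero (by omega))) (by decide)
    have hg2 : ∀ T : ℤ, (g * T) % 2 = 0 → (2 : ℤ) ∣ T := by
      intro T hT
      rcases hg with h1 | h1 <;> rw [h1] at hT <;> omega
    have h8 : ∀ s T : ℤ, s % 2 = 0 → (2 : ℤ) ∣ T → (16 : ℤ) ∣ s * T ^ 3 := by
      intro s T hs hT
      obtain ⟨s', rfl⟩ := Int.dvd_of_emod_eq_zero hs
      obtain ⟨T', rfl⟩ := hT
      exact ⟨s' * T' ^ 3, by ring⟩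
    have hsum := h.sum
    rcases Int.emod_two_eq_zero_or_one a with ha | ha
    · left
      have q1 := hodd a b h.cop ha
      have q2 := hodd a c h.copac ha
      exact h8 a X ha (hg2 X (by rw [← hX]; omega))
    · rcases Int.emod_two_eq_zero_or_one b with hb | hb
      · right; left
        have q2 := hodd b c h.copbc hb
        exact h8 b Y hb (hg2 Y (by rw [← hY]; omega))
      · right; right
        exact h8 c Z (by omega) (hg2 Z (by rw [← hZ]; omega))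
  have hcop : IsCoprime (a * X ^ 3) (b * Y ^ 3) := by
    have h1 : IsCoprime a Y := by
      have h2 : IsCoprime a (c - a) := by
        have := h.copac.add_mul_left_right (-1)
        rwa [show c + a * -1 = c - a by ring] at this
      rw [hY] at h2
      exact h2.of_mul_right_right
    have h3 : IsCoprime X b := by
      have h2 : IsCoprime b (b - c) := by
        have := h.copbc.neg_right.add_mul_left_right 1
        rwa [show -c + b * 1 = b - c by ring] at this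
      rw [hX] at h2
      exact h2.of_mul_right_right.symm
    refine IsCoprime.mul_left (IsCoprime.mul_right h.cop h1.pow_right) ?_
    exact (IsCoprime.mul_right h3 hXY.pow_right).pow_left
  refine ⟨X, Y, Z, ⟨hsum', mul_ne_zero h.ha (pow_ne_zero 3 hX0), mul_ne_zero h.hb (pow_ne_zero 3 hY0),
    mul_ne_zero h.hc (pow_ne_zero 3 hZ0), hcop⟩, ?_, ?_, ?_, ?_⟩
  · have h1 := Q241.AC.height_low a b c hsr
    rw [hXr, hYr, hZr] at h1
    have h2 := Q241.AC.le_H1 (a * X ^ 3) (b * Y ^ 3) (c * Z ^ 3)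
    have h3 := Q241.AC.le_H2 (a * X ^ 3) (b * Y ^ 3) (c * Z ^ 3)
    have h4 := Q241.AC.le_H3 (a * X ^ 3) (b * Y ^ 3) (c * Z ^ 3)
    push_cast at h2 h3 h4
    rw [abs_mul, abs_pow] at h2 h3 h4
    simp only [abs_mul, mul_pow] at h1
    have hg27 : |(g : ℝ)| ^ 3 ≤ 27 := by
      calc |(g : ℝ)| ^ 3 ≤ 3 ^ 3 := by gcongr
        _ = 27 := by norm_num
    have e : |(a : ℝ)| * (|(g : ℝ)| ^ 3 * |(X : ℝ)| ^ 3) + |(b : ℝ)| * (|(g : ℝ)| ^ 3 * |(Y : ℝ)| ^ 3) +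
        |(c : ℝ)| * (|(g : ℝ)| ^ 3 * |(Z : ℝ)| ^ 3) = |(g : ℝ)| ^ 3 * (|(a : ℝ)| * |(X : ℝ)| ^ 3 +
          |(b : ℝ)| * |(Y : ℝ)| ^ 3 + |(c : ℝ)| * |(Z : ℝ)| ^ 3) := by ring
    rw [e] at h1
    have h5 : 0 ≤ |(a : ℝ)| * |(X : ℝ)| ^ 3 + |(b : ℝ)| * |(Y : ℝ)| ^ 3 + |(c : ℝ)| * |(Z : ℝ)| ^ 3 := by
      positivity
    calc H a b c ^ 4 ≤ |(g : ℝ)| ^ 3 * (|(a : ℝ)| * |(X : ℝ)| ^ 3 +
          |(b : ℝ)| * |(Y : ℝ)| ^ 3 + |(c : ℝ)| * |(Z : ℝ)| ^ 3) := h1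
      _ ≤ 27 * (|(a : ℝ)| * |(X : ℝ)| ^ 3 + |(b : ℝ)| * |(Y : ℝ)| ^ 3 + |(c : ℝ)| * |(Z : ℝ)| ^ 3) := by
          gcongr
      _ ≤ 81 * H (a * X ^ 3) (b * Y ^ 3) (c * Z ^ 3) := by linarith
  · have hup : ∀ s t : ℝ, ∀ W : ℤ, |s| ≤ H a b c → |t| ≤ 2 * H a b c → t = g * W →
        |s * (W : ℝ) ^ 3| ≤ 8 * H a b c ^ 4 := by
      intro s t W h1 h2 h3
      have h4 : |(W : ℝ)| ≤ |t| := by
        rw [h3, abs_mul]
        exact le_mul_of_one_le_left (abs_nonneg _) hg1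
      rw [abs_mul, abs_pow]
      calc |s| * |(W : ℝ)| ^ 3 ≤ H a b c * (2 * H a b c) ^ 3 := by
            gcongr
            exact h4.trans h2
        _ = 8 * H a b c ^ 4 := by ring
    refine max_le (max_le ?_ ?_) ?_
    · push_cast
      exact hup a _ X (Q241.AC.le_H1 _ _ _) (habs b c (Q241.AC.le_H2 _ _ _) (Q241.AC.le_H3 _ _ _)) hXr
    · push_cast
      exact hup b _ Y (Q241.AC.le_H2 _ _ _) (habs c a (Q241.AC.le_H3 _ _ _) (Q241.AC.le_H1 _ _ _)) hYr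
    · push_cast
      exact hup c _ Z (Q241.AC.le_H3 _ _ _) (habs a b (Q241.AC.le_H1 _ _ _) (Q241.AC.le_H2 _ _ _)) hZr
  · have e : (a * X ^ 3 * (b * Y ^ 3) * (c * Z ^ 3)).natAbs =
        (a * b * c).natAbs * ((X * Y * Z).natAbs) ^ 3 := by
      rw [← Int.natAbs_pow, ← Int.natAbs_mul]
      congr 1
      ring
    have h1 := Q241.AC.R_cube (m := (a * b * c).natAbs) (n := (X * Y * Z).natAbs)
      (Int.natAbs_ne_zero.2 (mul_ne_zero (mul_ne_zero h.ha h.hb) h.hc))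
      (Int.natAbs_ne_zero.2 (mul_ne_zero (mul_ne_zero hX0 hY0) hZ0))
    rw [e]
    have h2 : ((X * Y * Z).natAbs : ℝ) ≤ 8 * H a b c ^ 3 := by
      rw [Nat.cast_natAbs]
      push_cast
      rw [abs_mul, abs_mul]
      have hup : ∀ t : ℝ, ∀ W : ℤ, |t| ≤ 2 * H a b c → t = g * W → |(W : ℝ)| ≤ 2 * H a b c := by
        intro t W h2 h3
        refine le_trans ?_ h2
        rw [h3, abs_mul]
        exact le_mul_of_one_le_left (abs_nonneg _) hg1
      have g1 := hup _ X (habs b c (Q241.AC.le_H2 _ _ _) (Q241.AC.le_H3 _ _ _)) hXr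
      have g2 := hup _ Y (habs c a (Q241.AC.le_H3 _ _ _) (Q241.AC.le_H1 _ _ _)) hYr
      have g3 := hup _ Z (habs a b (Q241.AC.le_H1 _ _ _) (Q241.AC.le_H2 _ _ _)) hZr
      calc |(X : ℝ)| * |(Y : ℝ)| * |(Z : ℝ)| ≤ (2 * H a b c) * (2 * H a b c) * (2 * H a b c) := by gcongr
        _ = 8 * H a b c ^ 3 := by ring
    calc (R ((a * b * c).natAbs * (X * Y * Z).natAbs ^ 3) : ℝ) ≤
          ((R (a * b * c).natAbs * (X * Y * Z).natAbs : ℕ) : ℝ) := by exact_mod_cast h1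
      _ = (R (a * b * c).natAbs : ℝ) * ((X * Y * Z).natAbs : ℝ) := by push_cast; ring
      _ ≤ _ := by gcongr
  · exact h16

end Q265.MS
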