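import Mathlib
import Pool.Agent.Q265.MS.All
import Pool.Agent.Q265.LO.Loc

/-! # The modified Szpiro inequality for curves with a balanced triple -/

set_option autoImplicit false

open Finset

namespace Q265.MS

open Q241.AC (R)

theorem ms_local {ε δ κ : ℝ} (hε : 0 < ε) (hδ : δ = ε / (18 * (6 + ε))) (hκ1 : 1 ≤ κ)
    {W : WeierstrassCurve ℤ} (hW : IsGlobalMinimal W) (h4 : W.c₄ ≠ 0) (h6 : W.c₆ ≠ 0)
    {g A B C : ℕ} (hg : g = Nat.gcd (W.c₄.natAbs ^ 3) (W.c₆.natAbs ^ 2)) (hg0 : 0 < g) (hA0 : 0 < A)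
    (hB0 : 0 < B) (hC0 : 0 < C) (hA : g * A = W.c₄.natAbs ^ 3) (hB : g * B = W.c₆.natAbs ^ 2)
    (hC : g * C = (1728 * W.Δ).natAbs) (hor : A = B + C ∨ B = A + C ∨ C = A + B)
    (habc : ((max A B : ℕ) : ℝ) ≤ κ * (R (A * B * C) : ℝ) ^ (1 + δ)) :
    Hw W ≤ (κ * 30 ^ 47 * 2 ^ δ) ^ (6 + ε) * (N6 W : ℝ) ^ (6 + ε) := by
  have hδ0 : 0 < δ := by rw [hδ]; positivity
  obtain ⟨K, hK⟩ : ∃ K : ℝ, K = κ * 30 ^ 47 * 2 ^ δ := ⟨_, rfl⟩
  have hK0 : 0 < K := by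
    rw [hK]
    have : 0 < (2 : ℝ) ^ δ := Real.rpow_pos_of_pos (by norm_num) _
    positivity
  rw [← hK]
  have hN1 : (1 : ℝ) ≤ N6 W := by exact_mod_cast N6_pos W
  have hNp : (0 : ℝ) ≤ (N6 W : ℝ) ^ (6 + ε) := by positivity
  have hloc := local_ineq hW h4 h6 hg hA hB hC
  obtain ⟨x, hx⟩ : ∃ x, x = W.c₄.natAbs := ⟨_, rfl⟩
  obtain ⟨y, hy⟩ : ∃ y, y = W.c₆.natAbs := ⟨_, rfl⟩
  rw [Hw_eq]
  rw [← hx] at hA hloc ⊢
  rw [← hy] at hB hloc ⊢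
  have hx0 : 0 < x := by rw [hx]; exact Int.natAbs_pos.2 h4
  have hy0 : 0 < y := by rw [hy]; exact Int.natAbs_pos.2 h6
  obtain ⟨M, hM⟩ : ∃ M : ℕ, M = max (x ^ 3) (y ^ 2) := ⟨_, rfl⟩
  rw [← hM]
  have hMx : x ^ 3 ≤ M := by rw [hM]; exact le_max_left _ _
  have hMy : y ^ 2 ≤ M := by rw [hM]; exact le_max_right _ _
  have hM1 : 1 ≤ M := le_trans (Nat.one_le_pow _ _ hx0) hMx
  have hMr : (1 : ℝ) ≤ M := by exact_mod_cast hM1
  have hMp : (0 : ℝ) < M := by linarith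
  have hMg : M = g * max A B := by rw [hM, ← hA, ← hB, Nat.mul_max_mul_left]
  obtain ⟨ρ, hρ⟩ : ∃ ρ : ℕ, ρ = R (A * B * C) := ⟨_, rfl⟩
  rw [← hρ] at habc hloc
  have hρ1 : (1 : ℝ) ≤ ρ := by rw [hρ]; exact Q241.AC.R_one_le _
  have hρ0 : (0 : ℝ) < ρ := by linarith
  have hxy : (x : ℝ) * y ≤ (M : ℝ) ^ (5 / 6 : ℝ) := by
    have h1 : (x : ℝ) ≤ (M : ℝ) ^ (1 / 3 : ℝ) := by
      have h2 : ((x : ℝ) ^ 3) ≤ M := by exact_mod_cast hMx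
      calc (x : ℝ) = ((x : ℝ) ^ 3) ^ (1 / 3 : ℝ) := by
            rw [← Real.rpow_natCast, ← Real.rpow_mul (Nat.cast_nonneg _)]
            norm_num
        _ ≤ _ := Real.rpow_le_rpow (by positivity) h2 (by norm_num)
    have h1' : (y : ℝ) ≤ (M : ℝ) ^ (1 / 2 : ℝ) := by
      have h2 : ((y : ℝ) ^ 2) ≤ M := by exact_mod_cast hMy
      calc (y : ℝ) = ((y : ℝ) ^ 2) ^ (1 / 2 : ℝ) := by
            rw [← Real.rpow_natCast, ← Real.rpow_mul (Nat.cast_nonneg _)]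
            norm_num
        _ ≤ _ := Real.rpow_le_rpow (by positivity) h2 (by norm_num)
    calc (x : ℝ) * y ≤ (M : ℝ) ^ (1 / 3 : ℝ) * (M : ℝ) ^ (1 / 2 : ℝ) := by gcongr
      _ = _ := by rw [← Real.rpow_add hMp]; norm_num
  have hρM : (ρ : ℝ) ^ δ ≤ 2 ^ δ * (M : ℝ) ^ (3 * δ) := by
    have h1 : (ρ : ℝ) ≤ 2 * (M : ℝ) ^ 3 := by
      have h2 : ρ ≤ A * B * C := by rw [hρ]; exact Q241.AC.R_le (by positivity)
      have h3 : A ≤ M := by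
        calc A ≤ g * A := Nat.le_mul_of_pos_left _ hg0
          _ ≤ M := by rw [hA]; exact hMx
      have h3' : B ≤ M := by
        calc B ≤ g * B := Nat.le_mul_of_pos_left _ hg0
          _ ≤ M := by rw [hB]; exact hMy
      have h4 : C ≤ 2 * M := by omega
      have h5 : A * B * C ≤ M * M * (2 * M) := Nat.mul_le_mul (Nat.mul_le_mul h3 h3') h4
      have h6 : ρ ≤ 2 * M ^ 3 := by
        calc ρ ≤ M * M * (2 * M) := h2.trans h5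
          _ = 2 * M ^ 3 := by ring
      exact_mod_cast h6
    calc (ρ : ℝ) ^ δ ≤ (2 * (M : ℝ) ^ 3) ^ δ := Real.rpow_le_rpow hρ0.le h1 hδ0.le
      _ = 2 ^ δ * (M : ℝ) ^ (3 * δ) := by
        rw [Real.mul_rpow (by norm_num) (by positivity), ← Real.rpow_natCast, ← Real.rpow_mul hMp.le]
        norm_num
  have hgρ : (g : ℝ) * ρ ≤ 30 ^ 47 * ((x : ℝ) * y * N6 W) := by
    have h1 : g * ρ ≤ 30 ^ 47 * (x * y * N6 W) :=
      Nat.le_of_dvd (by have := N6_pos W; positivity) hloc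
    exact_mod_cast h1
  have hmain : (M : ℝ) ≤ K * N6 W * (M : ℝ) ^ (5 / 6 + 3 * δ) := by
    have h1 : (M : ℝ) ≤ g * (κ * (ρ : ℝ) ^ (1 + δ)) := by
      have h2 : (M : ℝ) = g * ((max A B : ℕ) : ℝ) := by exact_mod_cast hMg
      rw [h2]
      gcongr
    calc (M : ℝ) ≤ g * (κ * (ρ : ℝ) ^ (1 + δ)) := h1
      _ = κ * ((g * ρ) * (ρ : ℝ) ^ δ) := by
        rw [Real.rpow_add hρ0, Real.rpow_one]
        ring
      _ ≤ κ * ((30 ^ 47 * ((x : ℝ) * y * N6 W)) * (2 ^ δ * (M : ℝ) ^ (3 * δ))) := by gcongr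
      _ ≤ κ * ((30 ^ 47 * ((M : ℝ) ^ (5 / 6 : ℝ) * N6 W)) * (2 ^ δ * (M : ℝ) ^ (3 * δ))) := by gcongr
      _ = K * N6 W * ((M : ℝ) ^ (5 / 6 : ℝ) * (M : ℝ) ^ (3 * δ)) := by rw [hK]; ring
      _ = _ := by rw [← Real.rpow_add hMp]
  have hexp : (1 : ℝ) = 1 / (6 + ε) + (5 / 6 + 3 * δ) := by
    rw [hδ]
    field_simp
    ring
  have hroot : (M : ℝ) ^ (1 / (6 + ε)) ≤ K * N6 W := by
    have h1 : (M : ℝ) = (M : ℝ) ^ (1 / (6 + ε)) * (M : ℝ) ^ (5 / 6 + 3 * δ) := by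
      rw [← Real.rpow_add hMp, ← hexp, Real.rpow_one]
    have h2 : (M : ℝ) ^ (1 / (6 + ε)) * (M : ℝ) ^ (5 / 6 + 3 * δ) ≤
        K * N6 W * (M : ℝ) ^ (5 / 6 + 3 * δ) := by rw [← h1]; exact hmain
    exact le_of_mul_le_mul_right h2 (Real.rpow_pos_of_pos hMp _)
  calc (M : ℝ) = ((M : ℝ) ^ (1 / (6 + ε))) ^ (6 + ε) := by
        rw [← Real.rpow_mul hMp.le, one_div_mul_cancel (by positivity), Real.rpow_one]
    _ ≤ (K * N6 W) ^ (6 + ε) := Real.rpow_le_rpow (Real.rpow_nonneg hMp.le _) hroot (by positivity)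
    _ = K ^ (6 + ε) * (N6 W : ℝ) ^ (6 + ε) := Real.mul_rpow hK0.le (by positivity)


/-- the inequality for unordered balanced triples -/
lemma abc_bal (h : ∀ δ : ℝ, 0 < δ → Q265.LO.On (Q265.LO.Ratio (Set.Icc δ (1 - δ)))) {δ ε : ℝ}
    (hδ : 0 < δ) (hε : 0 < ε) : ∃ κ : ℝ, 1 ≤ κ ∧ ∀ A B C : ℕ, 0 < A → 0 < B →
    0 < C → Nat.Coprime A B → (A = B + C ∨ B = A + C ∨ C = A + B) →
    (δ * A ≤ B) → (δ * A ≤ C) → (δ * B ≤ A) → (δ * B ≤ C) → (δ * C ≤ A) → (δ * C ≤ B) →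
    ((max A B : ℕ) : ℝ) ≤ κ * (R (A * B * C) : ℝ) ^ (1 + ε) := by
  obtain ⟨κ, hκ⟩ := h δ hδ ε hε
  refine ⟨max κ 1, le_max_right _ _, ?_⟩
  have hmono : ∀ n : ℕ, κ * (R n : ℝ) ^ (1 + ε) ≤ max κ 1 * (R n : ℝ) ^ (1 + ε) := fun n =>
    mul_le_mul_of_nonneg_right (le_max_left _ _) (Real.rpow_nonneg (Nat.cast_nonneg _) _)
  have core : ∀ a b c : ℕ, 0 < a → 0 < b → Nat.Coprime a b → a + b = c → δ * c ≤ a → δ * c ≤ b →
      (c : ℝ) ≤ max κ 1 * (R (a * b * c) : ℝ) ^ (1 + ε) := by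
    intro a b c ha hb hab hc h1 h2
    have hcr : (0 : ℝ) < c := by exact_mod_cast (by omega : 0 < c)
    have hs : (a : ℝ) + b = c := by exact_mod_cast hc
    refine (hκ (a, b, c) ⟨⟨ha, hb, hab, hc⟩, ?_, ?_⟩).trans (hmono _)
    · show δ ≤ (a : ℝ) / c
      rw [le_div_iff₀ hcr]
      exact h1
    · show (a : ℝ) / c ≤ 1 - δ
      rw [div_le_iff₀ hcr]
      linarith
  intro A B C hA hB hC hcop hor g1 g2 g3 g4 g5 g6
  rcases hor with h1 | h1 | h1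
  · have h2 : Nat.Coprime B C := by
      rw [h1] at hcop
      exact (Nat.coprime_add_self_left.1 (by rwa [add_comm] at hcop)).symm
    have h3 := core B C A hB hC h2 h1.symm g1 g2
    rw [show B * C * A = A * B * C by ring] at h3
    have h4 : max A B = A := max_eq_left (by omega)
    rw [h4]
    exact h3
  · have h2 : Nat.Coprime A C := by
      rw [h1] at hcop
      exact Nat.coprime_add_self_right.1 (by rwa [add_comm] at hcop)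
    have h3 := core A C B hA hC h2 h1.symm g3 g4
    rw [show A * C * B = A * B * C by ring] at h3
    have h4 : max A B = B := max_eq_right (by omega)
    rw [h4]
    exact h3
  · have h3 := core A B C hA hB hcop h1.symm g5 g6
    have h4 : ((max A B : ℕ) : ℝ) ≤ C := by
      have : max A B ≤ C := max_le (by omega) (by omega)
      exact_mod_cast this
    exact h4.trans h3

/-- the equations whose invariant `j` satisfies `δ ≤ |j| ≤ 1 / δ`, `|j - 1728| ≥ δ` -/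
def Bal (δ : ℝ) : Set (WeierstrassCurve ℤ) :=
  {W | δ ≤ |(W.c₄ : ℝ) ^ 3 / W.Δ| ∧ |(W.c₄ : ℝ) ^ 3 / W.Δ| ≤ 1 / δ ∧
    δ ≤ |(W.c₄ : ℝ) ^ 3 / W.Δ - 1728|}

/-- **The abc inequality for balanced triples implies the modified Szpiro inequality for all curves
with a balanced invariant.** -/
theorem ms_bal (h : ∀ δ : ℝ, 0 < δ → Q265.LO.On (Q265.LO.Ratio (Set.Icc δ (1 - δ)))) {δ : ℝ}
    (hδ : 0 < δ) : ∀ ε : ℝ, 0 < ε → ∃ C : ℝ, ∀ W ∈ Bal δ, IsGlobalMinimal W →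
    Hw W ≤ C * (N6 W : ℝ) ^ (6 + ε) := by
  intro ε hε
  obtain ⟨e, he⟩ : ∃ e : ℝ, e = ε / (18 * (6 + ε)) := ⟨_, rfl⟩
  have he0 : 0 < e := by rw [he]; positivity
  -- the balance of the triples
  obtain ⟨β, hβ⟩ : ∃ β : ℝ, β = min δ 1 / (1 / δ + 1728) := ⟨_, rfl⟩
  have hmin : 0 < min δ 1 := lt_min hδ one_pos
  have hβ0 : 0 < β := by rw [hβ]; positivity
  obtain ⟨κ, hκ1, hκ⟩ := abc_bal h hβ0 he0
  refine ⟨(κ * 30 ^ 47 * 2 ^ e) ^ (6 + ε), ?_⟩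
  rintro W ⟨w1, w2, w3⟩ hW
  have hΔ : W.Δ ≠ 0 := hW.1
  have hΔr : (W.Δ : ℝ) ≠ 0 := by exact_mod_cast hΔ
  have hΔp : 0 < |(W.Δ : ℝ)| := abs_pos.2 hΔr
  have hrel : 1728 * (W.Δ : ℝ) = (W.c₄ : ℝ) ^ 3 - (W.c₆ : ℝ) ^ 2 := by exact_mod_cast W.c_relation
  have v1 : δ * |(W.Δ : ℝ)| ≤ |(W.c₄ : ℝ)| ^ 3 := by
    rw [abs_div, le_div_iff₀ hΔp, abs_pow] at w1
    exact w1
  have v2 : |(W.c₄ : ℝ)| ^ 3 ≤ 1 / δ * |(W.Δ : ℝ)| := by
    rw [abs_div, div_le_iff₀ hΔp, abs_pow] at w2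
    exact w2
  have v3 : δ * |(W.Δ : ℝ)| ≤ (W.c₆ : ℝ) ^ 2 := by
    have e1 : (W.c₄ : ℝ) ^ 3 / W.Δ - 1728 = (W.c₆ : ℝ) ^ 2 / W.Δ := by
      field_simp
      linarith
    rw [e1, abs_div, le_div_iff₀ hΔp, abs_of_nonneg (sq_nonneg (W.c₆ : ℝ))] at w3
    exact w3
  have v4 : (W.c₆ : ℝ) ^ 2 ≤ (1 / δ + 1728) * |(W.Δ : ℝ)| := by
    have h1 : (W.c₆ : ℝ) ^ 2 = (W.c₄ : ℝ) ^ 3 - 1728 * W.Δ := by linarith
    have h2 : (W.c₄ : ℝ) ^ 3 ≤ |(W.c₄ : ℝ)| ^ 3 := by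
      rw [← abs_pow]
      exact le_abs_self _
    have h3 : -(1728 * (W.Δ : ℝ)) ≤ 1728 * |(W.Δ : ℝ)| := by
      have := neg_abs_le (W.Δ : ℝ)
      linarith
    rw [h1]
    linarith
  have h4 : W.c₄ ≠ 0 := by
    intro h0
    rw [h0] at v1
    simp only [Int.cast_zero, abs_zero] at v1
    have : 0 < δ * |(W.Δ : ℝ)| := by positivity
    norm_num at v1
    linarith
  have h6 : W.c₆ ≠ 0 := by
    intro h0
    rw [h0] at v3
    have : 0 < δ * |(W.Δ : ℝ)| := by positivity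
    norm_num at v3
    linarith
  obtain ⟨g, A, B, C, hg, hg0, hA0, hB0, hC0, hA, hB, hC, hcop, hor⟩ := triple hW.1 h4 h6
  have hgr : (0 : ℝ) < g := by exact_mod_cast hg0
  have hAr : (g : ℝ) * A = |(W.c₄ : ℝ)| ^ 3 := by
    have : ((g * A : ℕ) : ℝ) = ((W.c₄.natAbs ^ 3 : ℕ) : ℝ) := by rw [hA]
    push_cast at this
    rw [this, Nat.cast_natAbs]
    push_cast
    rfl
  have hBr : (g : ℝ) * B = (W.c₆ : ℝ) ^ 2 := by
    have : ((g * B : ℕ) : ℝ) = ((W.c₆.natAbs ^ 2 : ℕ) : ℝ) := by rw [hB]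
    push_cast at this
    rw [this, Nat.cast_natAbs]
    push_cast
    rw [sq_abs]
  have hCr : (g : ℝ) * C = 1728 * |(W.Δ : ℝ)| := by
    have : ((g * C : ℕ) : ℝ) = (((1728 * W.Δ).natAbs : ℕ) : ℝ) := by rw [hC]
    push_cast at this
    rw [this, Nat.cast_natAbs]
    push_cast
    rw [abs_mul, abs_of_pos (by norm_num : (0 : ℝ) < 1728)]
  have hU : 0 < 1 / δ + 1728 := by positivity
  have hβU : β * (1 / δ + 1728) = min δ 1 := by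
    rw [hβ]
    field_simp
  have key : ∀ X Y : ℝ, g * X ≤ (1 / δ + 1728) * |(W.Δ : ℝ)| → min δ 1 * |(W.Δ : ℝ)| ≤ g * Y →
      β * X ≤ Y := by
    intro X Y h1 h2
    have h3 : g * (β * X) ≤ g * Y := by
      calc g * (β * X) = β * (g * X) := by ring
        _ ≤ β * ((1 / δ + 1728) * |(W.Δ : ℝ)|) := by gcongr
        _ = min δ 1 * |(W.Δ : ℝ)| := by rw [← mul_assoc, hβU]
        _ ≤ g * Y := h2
    exact le_of_mul_le_mul_left h3 hgr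
  have uA : g * (A : ℝ) ≤ (1 / δ + 1728) * |(W.Δ : ℝ)| := by
    rw [hAr]
    linarith
  have uB : g * (B : ℝ) ≤ (1 / δ + 1728) * |(W.Δ : ℝ)| := by rw [hBr]; exact v4
  have uC : g * (C : ℝ) ≤ (1 / δ + 1728) * |(W.Δ : ℝ)| := by
    rw [hCr]
    have : 0 ≤ 1 / δ * |(W.Δ : ℝ)| := by positivity
    linarith
  have lA : min δ 1 * |(W.Δ : ℝ)| ≤ g * (A : ℝ) := by
    rw [hAr]
    exact (mul_le_mul_of_nonneg_right (min_le_left _ _) hΔp.le).trans v1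
  have lB : min δ 1 * |(W.Δ : ℝ)| ≤ g * (B : ℝ) := by
    rw [hBr]
    exact (mul_le_mul_of_nonneg_right (min_le_left _ _) hΔp.le).trans v3
  have lC : min δ 1 * |(W.Δ : ℝ)| ≤ g * (C : ℝ) := by
    rw [hCr]
    have := mul_le_mul_of_nonneg_right (min_le_right δ 1) hΔp.le
    linarith
  exact ms_local hε he hκ1 hW h4 h6 hg hg0 hA0 hB0 hC0 hA hB hC hor
    (hκ A B C hA0 hB0 hC0 hcop hor (key _ _ uA lB) (key _ _ uA lC) (key _ _ uB lA) (key _ _ uB lC)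
      (key _ _ uC lA) (key _ _ uC lB))

end Q265.MS
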